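import Pool.Agent.H95.L1.Rgs

/-!
[H95 L1 ADM]  The presieve condition in terms of `FL.DP`.

`W = primorial w`; a prime `p` divides `W` iff `p ≤ w`.
(→) if `p ∈ DP h (PP x a W) N` then `p ∣ N + h j`, so `x^a ≤ p`, but `p ∈ PP` gives `p < x^a`.
(←) let `p` be a prime with `p ∣ N + h j`.  If `p ∣ W`, then `N ≡ b (mod p)`, so `p ∣ b + h j`, contradiction to `hb`.  So `p ∤ W`; if
`p < x^a` then `p ∈ DP h (PP x a W) N = ∅`.
* `nm_eq`: by definition (`vv`, `PP`).
-/

namespace Pool.Agent.H95.L1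

open Finset Filter Topology Pool.Agent.H92.MM

theorem adm_iff {ι : Type} [Fintype ι] (x a : ℝ) (h : ι → ℕ) (w b : ℕ)
    (hb : ∀ j, Nat.Coprime (b + h j) (primorial w)) (N : ℕ) :
    Adm x a h (primorial w) b N ↔ N % primorial w = b % primorial w ∧
      Pool.Agent.H95.FL.DP h (PP x a (primorial w)) N = ∅ := by
  classical
  unfold Adm
  refine and_congr_right fun hN => ?_
  have hmod : N ≡ b [MOD primorial w] := hN
  have hmem : ∀ p, p ∈ Pool.Agent.H95.FL.DP h (PP x a (primorial w)) N ↔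
      p ∈ PP x a (primorial w) ∧ ∃ i, p ∣ N + h i := by
    intro p
    unfold Pool.Agent.H95.FL.DP
    simp only [Finset.mem_filter]
  have hDP : Pool.Agent.H95.FL.DP h (PP x a (primorial w)) N = ∅ ↔
      ∀ p ∈ PP x a (primorial w), ¬ ∃ i, p ∣ N + h i := by
    rw [Finset.eq_empty_iff_forall_notMem]
    constructor
    · intro h0 p hp hex
      exact h0 p ((hmem p).2 ⟨hp, hex⟩)
    · intro h0 p hp
      exact h0 p ((hmem p).1 hp).1 ((hmem p).1 hp).2
  rw [hDP]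
  constructor
  · rintro h1 p hp ⟨j, hj⟩
    obtain ⟨hpp, -, hlt⟩ := mem_PP.1 hp
    exact absurd (h1 j p hpp hj) (not_le.2 hlt)
  · intro h1 j p hp hj
    by_contra hlt
    have hW : ¬ p ∣ primorial w := by
      intro hW
      have h2 : N + h j ≡ b + h j [MOD p] := (hmod.of_dvd hW).add_right _
      have h3 : p ∣ b + h j := (Nat.ModEq.dvd_iff h2 dvd_rfl).1 hj
      exact hp.ne_one (Nat.dvd_one.1 ((hb j) ▸ Nat.dvd_gcd h3 hW))
    exact h1 p (mem_PP.2 ⟨hp, hW, not_le.1 hlt⟩) ⟨j, hj⟩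

theorem nm_eq (x a : ℝ) (W K : ℕ) : nm x a W K =
    mass x / W * Pool.Agent.H95.FL.vv (fun p => (K : ℝ) / p) (PP x a W) := by
  rfl

end Pool.Agent.H95.L1
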