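import Pool.Agent.H95.L1.Def

/-!
[H95 L1 CHO]  Products of binomial coefficients as sums over families.

* `cho`: `C(#S0, s) = #(S0.powersetCard s)` (`card_powersetCard`), and for `S0 = (T i).filter (· ∣ n)`:
  `S0.powersetCard s = (T i).powersetCard s |>.filter (∀ p ∈ S, p ∣ n)`, so
  `C(#S0, s) = ∑_{S ∈ (T i).powersetCard s} [∀ p ∈ S, p ∣ n]`.  Then `Finset.prod_univ_sum` twice (the product of sums is the sum
  over `Fintype.piFinset`), and the product of the indicators is the indicator of `Dv h k N`.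
* `cho_fam`: the terms with `¬ Dsj k` vanish: if `p ∈ k j i ∩ k j' i'` with `(j,i) ≠ (j',i')`, then `p ∈ T i ∩ T i'`, so `i = i'` by
  `hTd`, `j ≠ j'`, and `Dv` gives `p ∣ N + h j`, `p ∣ N + h j'`, so `p ∣ h j - h j'` in `ℤ`, contradiction to `hd`.
-/

namespace Pool.Agent.H95.L1

open Finset

variable {ι : Type} [Fintype ι] [DecidableEq ι] {L : ℕ}

open Classical in
private theorem cho_one (T : Finset ℕ) (s n : ℕ) :
    (((T.filter (· ∣ n)).card.choose s : ℕ) : ℝ) =
      ∑ S ∈ T.powersetCard s, if ∀ p ∈ S, p ∣ n then (1 : ℝ) else 0 := by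
  rw [Finset.sum_boole, ← Finset.card_powersetCard]
  congr 2
  ext S
  simp only [mem_powersetCard, mem_filter]
  constructor
  · rintro ⟨h1, h2⟩
    exact ⟨⟨fun p hp => (mem_filter.1 (h1 hp)).1, h2⟩, fun p hp => (mem_filter.1 (h1 hp)).2⟩
  · rintro ⟨⟨h1, h2⟩, h3⟩
    exact ⟨fun p hp => mem_filter.2 ⟨h1 hp, h3 p hp⟩, h2⟩

open Classical in
theorem cho (T : Fin L → Finset ℕ) (A : ι → Fin L → ℕ) (h : ι → ℕ) (N : ℕ) :
    ∏ j, ∏ i, ((((T i).filter (· ∣ N + h j)).card.choose (A j i) : ℕ) : ℝ) =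
      ∑ k ∈ All T A, if Dv h k N then (1 : ℝ) else 0 := by
  have h1 : ∀ j, ∏ i, ((((T i).filter (· ∣ N + h j)).card.choose (A j i) : ℕ) : ℝ) =
      ∑ u ∈ Fintype.piFinset fun i => (T i).powersetCard (A j i),
        ∏ i, if ∀ p ∈ u i, p ∣ N + h j then (1 : ℝ) else 0 := by
    intro j
    rw [Finset.prod_congr rfl fun i _ => cho_one (T i) (A j i) (N + h j), Finset.prod_univ_sum]
  rw [Finset.prod_congr rfl fun j _ => h1 j, Finset.prod_univ_sum]
  refine Finset.sum_congr rfl fun k _ => ?_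
  by_cases hD : Dv h k N
  · rw [if_pos hD]
    refine Finset.prod_eq_one fun j _ => Finset.prod_eq_one fun i _ => ?_
    rw [if_pos (hD j i)]
  · rw [if_neg hD]
    unfold Dv at hD
    push Not at hD
    obtain ⟨j, i, p, hp, hd⟩ := hD
    refine Finset.prod_eq_zero (Finset.mem_univ j) (Finset.prod_eq_zero (Finset.mem_univ i) ?_)
    rw [if_neg]
    intro h2
    exact hd (h2 p hp)

open Classical in
theorem cho_fam (T : Fin L → Finset ℕ) (A : ι → Fin L → ℕ) (h : ι → ℕ)
    (hTd : ∀ i i', i ≠ i' → Disjoint (T i) (T i'))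
    (hd : ∀ i, ∀ p ∈ T i, ∀ j j', j ≠ j' → ¬ (p : ℤ) ∣ (h j : ℤ) - h j') (N : ℕ) :
    ∏ j, ∏ i, ((((T i).filter (· ∣ N + h j)).card.choose (A j i) : ℕ) : ℝ) =
      ∑ k ∈ Fam T A, if Dv h k N then (1 : ℝ) else 0 := by
  rw [cho T A h N]
  unfold Fam
  rw [Finset.sum_filter]
  refine Finset.sum_congr rfl fun k hk => ?_
  by_cases hD : Dv h k N
  · have hs : Dsj k := by
      intro j i j' i' hne
      rw [Finset.disjoint_left]
      intro p hp hp'
      have hk1 : ∀ j i, k j i ⊆ T i := by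
        intro j i
        have h1 := (Fintype.mem_piFinset.1 ((Fintype.mem_piFinset.1 hk) j)) i
        exact (mem_powersetCard.1 h1).1
      have hpT := hk1 j i hp
      have hpT' := hk1 j' i' hp'
      have hii : i = i' := by
        by_contra hne'
        exact (Finset.disjoint_left.1 (hTd i i' hne')) hpT hpT'
      have hjj : j ≠ j' := by
        intro hj
        exact hne (by rw [hj, hii])
      refine hd i p hpT j j' hjj ?_
      have h1 : (p : ℤ) ∣ (N : ℤ) + h j := by exact_mod_cast hD j i p hp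
      have h2 : (p : ℤ) ∣ (N : ℤ) + h j' := by exact_mod_cast hD j' i' p hp'
      have h3 := dvd_sub h1 h2
      have h4 : (N : ℤ) + h j - ((N : ℤ) + h j') = (h j : ℤ) - h j' := by ring
      rwa [h4] at h3
    rw [if_pos hs]
  · rw [if_neg hD]
    split_ifs <;> rfl

end Pool.Agent.H95.L1
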