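import Pool.Agent.H95.L1.Def

/-!
[H95 L1 CRT]  The condition `Dv h k N` is one residue class modulo `qk k` for a disjoint family of primes.

Put `U = ⋃_{j,i} k j i`; by disjointness `qk k = ∏_{p ∈ U} p` (`prod_biUnion` twice) and every `p ∈ U` lies in `k j i` for exactly one
`(j, i)`; write `jj p` for this `j` (choice).  Then `Dv h k N ↔ ∀ p ∈ U, p ∣ N + h (jj p)`.
By `Nat.chineseRemainderOfFinset` there is `α` with `α ≡ h (jj p) (mod p)` for all `p ∈ U`; so the condition is `p ∣ N + α` for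
all `p ∈ U`, i.e. `q ∣ N + α`, `q = qk k` (`Finset.prod_primes_dvd`), i.e. `N ≡ r (mod q)` with `r = α * (q - 1)` (`r + α = q α`).
(The private lemma `crt` of `Pool/Agent/H75/AP/Count.lean` is the same argument.)
-/

namespace Pool.Agent.H95.L1

open Finset

variable {ι : Type} [Fintype ι] [DecidableEq ι] {L : ℕ}

theorem crt (T : Fin L → Finset ℕ) (A : ι → Fin L → ℕ) (h : ι → ℕ) (hT : ∀ i, ∀ p ∈ T i, p.Prime)
    (k : ι → Fin L → Finset ℕ) (hk : k ∈ Fam T A) :
    ∃ r : ℕ, ∀ N, Dv h k N ↔ N % qk k = r % qk k := by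
  classical
  set S : Finset (Σ _ : ι × Fin L, ℕ) :=
    (Finset.univ : Finset (ι × Fin L)).sigma (fun ji => k ji.1 ji.2) with hS
  have hAll : k ∈ All T A := (Finset.mem_filter.1 hk).1
  have hD : Dsj k := (Finset.mem_filter.1 hk).2
  have hprime : ∀ j i, ∀ p ∈ k j i, p.Prime := by
    intro j i p hp
    have h1 := Fintype.mem_piFinset.1 hAll j
    have h2 := Fintype.mem_piFinset.1 h1 i
    exact hT i p ((Finset.mem_powersetCard.1 h2).1 hp)
  have hmem : ∀ x : (Σ _ : ι × Fin L, ℕ), x ∈ S ↔ x.2 ∈ k x.1.1 x.1.2 := by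
    intro x
    rw [hS, Finset.mem_sigma]
    simp
  have hcop : (S : Set (Σ _ : ι × Fin L, ℕ)).Pairwise
      (Function.onFun Nat.Coprime (fun x => x.2)) := by
    intro x hx y hy hxy
    have hx' := (hmem x).1 hx
    have hy' := (hmem y).1 hy
    refine (Nat.coprime_primes (hprime _ _ _ hx') (hprime _ _ _ hy')).2 ?_
    intro h1
    obtain ⟨⟨j, i⟩, p⟩ := x
    obtain ⟨⟨j', i'⟩, p'⟩ := y
    simp only at h1 hx' hy'
    subst h1
    by_cases hji : (j, i) = (j', i')
    · apply hxy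
      rw [hji]
    · exact Finset.disjoint_left.1 (hD j i j' i' hji) hx' hy'
  obtain ⟨α, hα⟩ := Nat.chineseRemainderOfFinset (fun x : (Σ _ : ι × Fin L, ℕ) => h x.1.1)
    (fun x => x.2) S (fun x hx => (hprime _ _ _ ((hmem x).1 hx)).ne_zero) hcop
  have hq : qk k = ∏ x ∈ S, x.2 := by
    rw [hS, Finset.prod_sigma, qk, Fintype.prod_prod_type]
  have hDv : ∀ N, Dv h k N ↔ qk k ∣ N + α := by
    intro N
    rw [hq]
    constructor
    · intro hN
      refine Finset.prod_dvd_of_isRelPrime (fun x hx y hy hxy =>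
        Nat.coprime_iff_isRelPrime.1 (hcop hx hy hxy)) fun x hx => ?_
      have h1 := hN x.1.1 x.1.2 x.2 ((hmem x).1 hx)
      have h2 : α ≡ h x.1.1 [MOD x.2] := hα x hx
      exact (Nat.modEq_zero_iff_dvd.1 ((h2.add_left N).trans (Nat.modEq_zero_iff_dvd.2 h1)))
    · intro hN j i p hp
      have hx : (⟨(j, i), p⟩ : Σ _ : ι × Fin L, ℕ) ∈ S := (hmem _).2 hp
      have h1 : p ∣ N + α := (Finset.dvd_prod_of_mem (fun x : (Σ _ : ι × Fin L, ℕ) => x.2)
        hx).trans hN
      have h2 : α ≡ h j [MOD p] := hα _ hx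
      exact (Nat.modEq_zero_iff_dvd.1 ((h2.symm.add_left N).trans (Nat.modEq_zero_iff_dvd.2 h1)))
  have hq0 : 0 < qk k := by
    rw [hq]
    exact Finset.prod_pos fun x hx => (hprime _ _ _ ((hmem x).1 hx)).pos
  refine ⟨α * (qk k - 1), fun N => ?_⟩
  rw [hDv]
  have h3 : α * (qk k - 1) + α = qk k * α := by
    obtain ⟨q, hq'⟩ := Nat.exists_eq_succ_of_ne_zero hq0.ne'
    rw [hq']
    simp only [Nat.succ_eq_add_one, Nat.add_sub_cancel]
    ring
  have h4 : α * (qk k - 1) + α ≡ 0 [MOD qk k] := by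
    rw [h3]
    exact Nat.modEq_zero_iff_dvd.2 (dvd_mul_right _ _)
  constructor
  · intro hN
    exact Nat.ModEq.add_right_cancel' α ((Nat.modEq_zero_iff_dvd.2 hN).trans h4.symm)
  · intro hN
    have h5 : N ≡ α * (qk k - 1) [MOD qk k] := hN
    exact Nat.modEq_zero_iff_dvd.1 ((h5.add_right α).trans h4)

end Pool.Agent.H95.L1
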