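import Pool.Agent.H95.L1.Qk

/-!
[H95 L1 NUM]  The number of disjoint families with a given product `n` is at most `K^ω(n)`, `K = card ι`.

The map `k ↦ (p ↦ the j with p ∈ k j i)` from `{k ∈ Fam : qk k = n}` to the functions `n.primeFactors → ι`
(`Fintype.piFinset`/`Fintype.card_fun`, or `Finset.pi`) is injective: `p ∣ n` lies in some `k j i` (`prime_dvd_qk`), unique by
disjointness; `i` is determined by `p` (`T i` pairwise disjoint), and `k j i = {p ∈ T i : p ∣ n, j(p) = j}`.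
-/

namespace Pool.Agent.H95.L1

open Finset

variable {ι : Type} [Fintype ι] [DecidableEq ι] {L : ℕ}

private theorem num_sub (T : Fin L → Finset ℕ) (A : ι → Fin L → ℕ)
    (hT : ∀ i, ∀ p ∈ T i, p.Prime) (hTd : ∀ i i', i ≠ i' → Disjoint (T i) (T i')) (n : ℕ)
    {k k' : ι → Fin L → Finset ℕ} (hk : k ∈ Fam T A) (hk' : k' ∈ Fam T A)
    (hn : qk k = n) (jj : ∀ p ∈ n.primeFactors, ι)
    (h1 : ∀ p (hp : p ∈ n.primeFactors), ∃ i, p ∈ k (jj p hp) i)
    (h2 : ∀ p (hp : p ∈ n.primeFactors), ∃ i, p ∈ k' (jj p hp) i) (j : ι) (i : Fin L) :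
    k j i ⊆ k' j i := by
  intro p hp
  obtain ⟨hkA, hkD⟩ := mem_Fam.1 hk
  obtain ⟨hkA', hkD'⟩ := mem_Fam.1 hk'
  have hpT : p ∈ T i := (mem_All.1 hkA j i).1 hp
  have hpp : p.Prime := hT i p hpT
  have hn0 : n ≠ 0 := by
    rw [← hn]
    exact (qk_pos hT hkA).ne'
  have hpn : p ∈ n.primeFactors := by
    rw [Nat.mem_primeFactors]
    exact ⟨hpp, by rw [← hn]; exact dvd_qk k hp, hn0⟩
  obtain ⟨i1, hi1⟩ := h1 p hpn
  obtain ⟨i2, hi2⟩ := h2 p hpn
  have e1 : (jj p hpn, i1) = (j, i) := by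
    by_contra hne
    exact Finset.disjoint_left.1 (hkD _ _ _ _ hne) hi1 hp
  have e2 : i2 = i := by
    by_contra hne
    exact Finset.disjoint_left.1 (hTd _ _ hne) ((mem_All.1 hkA' _ i2).1 hi2) hpT
  have e3 : jj p hpn = j := (Prod.mk.inj e1).1
  rw [e2, e3] at hi2
  exact hi2

theorem num (T : Fin L → Finset ℕ) (A : ι → Fin L → ℕ) (hT : ∀ i, ∀ p ∈ T i, p.Prime)
    (hTd : ∀ i i', i ≠ i' → Disjoint (T i) (T i')) (n : ℕ) :
    ((Fam T A).filter (fun k => qk k = n)).card ≤ Fintype.card ι ^ n.primeFactors.card := by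
  classical
  have hex : ∀ k : ((Fam T A).filter (fun k => qk k = n) : Finset (ι → Fin L → Finset ℕ)),
      ∀ p : n.primeFactors, ∃ j, ∃ i, p.1 ∈ k.1 j i := by
    intro k p
    have h1 := mem_filter.1 k.2
    have h2 := Nat.mem_primeFactors.1 p.2
    exact prime_dvd_qk hT (mem_Fam.1 h1.1).1 h2.1 (by rw [h1.2]; exact h2.2.1)
  set f : ((Fam T A).filter (fun k => qk k = n) : Finset (ι → Fin L → Finset ℕ)) →
      (n.primeFactors → ι) := fun k p => (hex k p).choose with hf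
  have hinj : Function.Injective f := by
    intro k k' hkk
    have h1 := mem_filter.1 k.2
    have h1' := mem_filter.1 k'.2
    have s1 : ∀ p (hp : p ∈ n.primeFactors), ∃ i, p ∈ k.1 (f k ⟨p, hp⟩) i :=
      fun p hp => (hex k ⟨p, hp⟩).choose_spec
    have s2 : ∀ p (hp : p ∈ n.primeFactors), ∃ i, p ∈ k'.1 (f k ⟨p, hp⟩) i := by
      intro p hp
      rw [hkk]
      exact (hex k' ⟨p, hp⟩).choose_spec
    apply Subtype.ext
    funext j i
    exact Finset.Subset.antisymm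
      (num_sub T A hT hTd n h1.1 h1'.1 h1.2 (fun p hp => f k ⟨p, hp⟩) s1 s2 j i)
      (num_sub T A hT hTd n h1'.1 h1.1 h1'.2 (fun p hp => f k ⟨p, hp⟩) s2 s1 j i)
  have := Fintype.card_le_of_injective f hinj
  rw [Fintype.card_coe, Fintype.card_fun, Fintype.card_coe] at this
  exact this

end Pool.Agent.H95.L1
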