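import Pool.Agent.H95.L1.Def

/-!
[H95 L1 QK]  Facts about `qk k`.

* `qk_pos`, `dvd_qk`, `prime_dvd_qk`: clear (`Prime.dvd_finset_prod_iff` twice / three times).
* `qk_squarefree`: `qk k = ∏_{p ∈ U} p` with `U` the disjoint union of the `k j i` (`prod_biUnion`), a product of distinct primes
  (`Finset.squarefree_prod_of_pairwise_isCoprime` or `Nat.squarefree` via coprime products, or `UniqueFactorizationMonoid`).
* `qk_le`: `∏_{p ∈ S} p ≤ y^#S` (`prod_le_pow_card`), then `prod_le_prod`.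
* `card_All_le`: `card_piFinset`, `card_powersetCard`, `C(n, s) ≤ n^s`.
-/

namespace Pool.Agent.H95.L1

open Finset

variable {ι : Type} [Fintype ι] [DecidableEq ι] {L : ℕ}

theorem mem_All {T : Fin L → Finset ℕ} {A : ι → Fin L → ℕ} {k : ι → Fin L → Finset ℕ} :
    k ∈ All T A ↔ ∀ j i, k j i ⊆ T i ∧ (k j i).card = A j i := by
  simp [All, Fintype.mem_piFinset, mem_powersetCard]

theorem mem_Fam {T : Fin L → Finset ℕ} {A : ι → Fin L → ℕ} {k : ι → Fin L → Finset ℕ} :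
    k ∈ Fam T A ↔ k ∈ All T A ∧ Dsj k := by
  classical
  simp [Fam]

theorem qk_pos {T : Fin L → Finset ℕ} {A : ι → Fin L → ℕ} {k : ι → Fin L → Finset ℕ}
    (hT : ∀ i, ∀ p ∈ T i, p.Prime) (hk : k ∈ All T A) : 0 < qk k := by
  rw [mem_All] at hk
  refine prod_pos fun j _ => prod_pos fun i _ => prod_pos fun p hp => ?_
  exact (hT i p ((hk j i).1 hp)).pos

theorem dvd_qk (k : ι → Fin L → Finset ℕ) {j : ι} {i : Fin L} {p : ℕ} (hp : p ∈ k j i) :
    p ∣ qk k := by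
  unfold qk
  exact (dvd_prod_of_mem (fun p => p) hp).trans ((dvd_prod_of_mem (fun i => ∏ p ∈ k j i, p)
    (mem_univ i)).trans (dvd_prod_of_mem (fun j => ∏ i, ∏ p ∈ k j i, p) (mem_univ j)))

theorem prime_dvd_qk {T : Fin L → Finset ℕ} {A : ι → Fin L → ℕ} {k : ι → Fin L → Finset ℕ}
    (hT : ∀ i, ∀ p ∈ T i, p.Prime) (hk : k ∈ All T A) {p : ℕ} (hp : p.Prime) (hd : p ∣ qk k) :
    ∃ j i, p ∈ k j i := by
  rw [mem_All] at hk
  unfold qk at hd
  obtain ⟨j, -, hj⟩ := (hp.prime.dvd_finsetProd_iff _).1 hd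
  obtain ⟨i, -, hi⟩ := (hp.prime.dvd_finsetProd_iff _).1 hj
  obtain ⟨q, hq, hpq⟩ := (hp.prime.dvd_finsetProd_iff _).1 hi
  have h1 := (Nat.prime_dvd_prime_iff_eq hp (hT i q ((hk j i).1 hq))).1 hpq
  exact ⟨j, i, by rw [h1]; exact hq⟩

theorem qk_squarefree {T : Fin L → Finset ℕ} {A : ι → Fin L → ℕ} {k : ι → Fin L → Finset ℕ}
    (hT : ∀ i, ∀ p ∈ T i, p.Prime) (hk : k ∈ Fam T A) : Squarefree (qk k) := by
  obtain ⟨hA, hD⟩ := mem_Fam.1 hk
  rw [mem_All] at hA
  have h1 : qk k = ∏ p ∈ (univ : Finset (ι × Fin L)).biUnion (fun x => k x.1 x.2), p := by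
    rw [prod_biUnion]
    · unfold qk
      rw [Fintype.prod_prod_type]
    · intro x _ y _ hxy
      exact hD x.1 x.2 y.1 y.2 hxy
  rw [h1]
  have h2 : ∀ U : Finset ℕ, (∀ p ∈ U, p.Prime) → Squarefree (∏ p ∈ U, p) := by
    intro U
    induction U using Finset.induction_on with
    | empty =>
      intro _
      rw [prod_empty]
      exact squarefree_one
    | insert a s ha ih =>
      intro hU
      rw [prod_insert ha, Nat.squarefree_mul]
      · exact ⟨(hU a (mem_insert_self a s)).squarefree,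
          ih fun p hp => hU p (mem_insert_of_mem hp)⟩
      · rw [Nat.coprime_prod_right_iff]
        intro p hp
        rw [Nat.coprime_primes (hU a (mem_insert_self a s)) (hU p (mem_insert_of_mem hp))]
        rintro rfl
        exact ha hp
  apply h2
  intro p hp
  obtain ⟨x, -, hx⟩ := mem_biUnion.1 hp
  exact hT x.2 p ((hA x.1 x.2).1 hx)

theorem qk_le {T : Fin L → Finset ℕ} {A : ι → Fin L → ℕ} {k : ι → Fin L → Finset ℕ}
    (y : Fin L → ℝ) (hy : ∀ i, ∀ p ∈ T i, (p : ℝ) ≤ y i) (hy0 : ∀ i, 0 ≤ y i)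
    (hk : k ∈ All T A) : (qk k : ℝ) ≤ ∏ j, ∏ i, y i ^ A j i := by
  rw [mem_All] at hk
  unfold qk
  rw [Nat.cast_prod]
  refine prod_le_prod (fun j _ => Nat.cast_nonneg _) fun j _ => ?_
  rw [Nat.cast_prod]
  refine prod_le_prod (fun i _ => Nat.cast_nonneg _) fun i _ => ?_
  rw [Nat.cast_prod, ← (hk j i).2, ← prod_const]
  exact prod_le_prod (fun p _ => Nat.cast_nonneg _) fun p hp => hy i p ((hk j i).1 hp)

theorem card_All_le (T : Fin L → Finset ℕ) (A : ι → Fin L → ℕ) (y : Fin L → ℝ)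
    (hy : ∀ i, ((T i).card : ℝ) ≤ y i) :
    ((All T A).card : ℝ) ≤ ∏ j, ∏ i, y i ^ A j i := by
  unfold All
  rw [Fintype.card_piFinset, Nat.cast_prod]
  refine prod_le_prod (fun j _ => Nat.cast_nonneg _) fun j _ => ?_
  rw [Fintype.card_piFinset, Nat.cast_prod]
  refine prod_le_prod (fun i _ => Nat.cast_nonneg _) fun i _ => ?_
  rw [card_powersetCard]
  have h1 : ((T i).card.choose (A j i) : ℝ) ≤ ((T i).card : ℝ) ^ A j i := by
    exact_mod_cast Nat.choose_le_pow _ _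
  exact h1.trans (pow_le_pow_left₀ (Nat.cast_nonneg _) (hy i) _)

end Pool.Agent.H95.L1
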