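import Pool.Agent.H95.L1.Def

/-!
[H95 L1 RGS]  Elementary facts about the ranges `TI x a L i` (primes of `[x^(a 2^i), x^(a 2^(i+1)))`) and the presieve set `PP`.

`p ∈ range ⌈y⌉₊ ↔ (p : ℝ) < y` (`Nat.lt_ceil`).
* `TI_disj`: for `i < i'` the elements of `TI i` are `< x^(a 2^(i+1)) ≤ x^(a 2^i')` (`x ≥ 1`).
* `TI_card`: `TI ⊆ range ⌈x^β⌉₊` without `0`, so `#TI ≤ x^β` (`β = a 2^(i+1)`; `⌈y⌉₊ ≤ y + 1`, and `0` is not prime).
* `TI_large`: `p ≥ x^(a 2^i) ≥ x^a → ∞`.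
* `prod_level`: `∏_j ∏_i (x^(a 2^(i+1)))^(A j i) = x^(sl a L A)`.
-/

namespace Pool.Agent.H95.L1

open Finset Filter Topology Pool.Agent.H92.MM

theorem mem_TI {x a : ℝ} {L : ℕ} {i : Fin L} {p : ℕ} : p ∈ TI x a L i ↔
    p.Prime ∧ x ^ (a * 2 ^ (i : ℕ)) ≤ (p : ℝ) ∧ (p : ℝ) < x ^ (a * 2 ^ ((i : ℕ) + 1)) := by
  unfold TI rg
  rw [mem_filter, mem_range, Nat.lt_ceil]
  tauto

theorem mem_PP {x a : ℝ} {W p : ℕ} : p ∈ PP x a W ↔ p.Prime ∧ ¬ p ∣ W ∧ (p : ℝ) < x ^ a := by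
  unfold PP
  rw [mem_filter, mem_range, Nat.lt_ceil]
  tauto

theorem TI_disj {x a : ℝ} (hx : 1 ≤ x) (ha : 0 < a) (L : ℕ) (i i' : Fin L) (h : i ≠ i') :
    Disjoint (TI x a L i) (TI x a L i') := by
  have key : ∀ i i' : Fin L, (i : ℕ) < i' → Disjoint (TI x a L i) (TI x a L i') := by
    intro i i' hi
    rw [disjoint_left]
    intro p hp hp'
    rw [mem_TI] at hp hp'
    have h1 : x ^ (a * 2 ^ ((i : ℕ) + 1)) ≤ x ^ (a * 2 ^ (i' : ℕ)) := by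
      apply Real.rpow_le_rpow_of_exponent_le hx
      exact mul_le_mul_of_nonneg_left (pow_le_pow_right₀ one_le_two hi) ha.le
    exact absurd (hp.2.2.trans_le (h1.trans hp'.2.1)) (lt_irrefl _)
  rcases lt_or_gt_of_ne (fun h' => h (Fin.ext h') : (i : ℕ) ≠ i') with h1 | h1
  · exact key i i' h1
  · exact (key i' i h1).symm

theorem TI_ge {x a : ℝ} (hx : 1 ≤ x) (ha : 0 < a) {L : ℕ} {i : Fin L} {p : ℕ} (hp : p ∈ TI x a L i) :
    x ^ a ≤ (p : ℝ) := by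
  rw [mem_TI] at hp
  refine le_trans (Real.rpow_le_rpow_of_exponent_le hx ?_) hp.2.1
  exact le_mul_of_one_le_right ha.le (one_le_pow₀ one_le_two)

theorem TI_card {x a : ℝ} (hx : 1 ≤ x) {L : ℕ} (i : Fin L) :
    ((TI x a L i).card : ℝ) ≤ x ^ (a * 2 ^ ((i : ℕ) + 1)) := by
  have hx0 : 0 ≤ x ^ (a * 2 ^ ((i : ℕ) + 1)) := Real.rpow_nonneg (zero_le_one.trans hx) _
  have h1 : TI x a L i ⊆ Icc 1 ⌊x ^ (a * 2 ^ ((i : ℕ) + 1))⌋₊ := by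
    intro p hp
    rw [mem_TI] at hp
    rw [mem_Icc]
    exact ⟨hp.1.one_lt.le, Nat.le_floor hp.2.2.le⟩
  have h2 := card_le_card h1
  rw [Nat.card_Icc, Nat.add_sub_cancel] at h2
  exact le_trans (Nat.cast_le.2 h2) (Nat.floor_le hx0)

theorem TI_large {a : ℝ} (ha : 0 < a) (L : ℕ) (i : Fin L) (M : ℝ) :
    ∀ᶠ x : ℝ in atTop, ∀ p ∈ TI x a L i, M ≤ (p : ℝ) := by
  filter_upwards [eventually_ge_atTop 1, (tendsto_rpow_atTop ha).eventually_ge_atTop M]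
    with x hx hM p hp
  exact hM.trans (TI_ge hx ha hp)

theorem prod_level {ι : Type} [Fintype ι] {x a : ℝ} (hx : 0 < x) (L : ℕ) (A : ι → Fin L → ℕ) :
    ∏ j, ∏ i : Fin L, (x ^ (a * 2 ^ ((i : ℕ) + 1))) ^ A j i = x ^ sl a L A := by
  unfold sl
  rw [Real.rpow_sum_of_pos hx]
  refine prod_congr rfl fun j _ => ?_
  rw [Real.rpow_sum_of_pos hx]
  refine prod_congr rfl fun i _ => ?_
  rw [← Real.rpow_mul_natCast hx.le, mul_comm ((A j i : ℝ))]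

/-- the small monomial in terms of `TI` -/
theorem sm_eq {ι : Type} [Fintype ι] (x a : ℝ) (L : ℕ) (h : ι → ℕ) (A : ι → Fin L → ℕ) (N : ℕ) :
    sm x a L h A N = ∏ j, ∏ i, ((((TI x a L i).filter (· ∣ N + h j)).card.choose (A j i) : ℕ) : ℝ) :=
  rfl

end Pool.Agent.H95.L1
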