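import Pool.Agent.H95.L1.Def

/-!
[H95 L1 ESY]  Elementary symmetric sums of `1/p`.

* `es_le`: `es T s = mean (1/p) T (fC s)` (`FL.mean_fC_le`, `Pool/Agent/H95/FL/Mn.lean`; sum over `T.powerset` of an indicator).
* `es_erase`: for `p ∈ T`: `es T (s+1) = es (T.erase p) (s+1) + (1/p) es (T.erase p) s` (`powersetCard_succ_insert`).
* `es_succ`: double counting `(s+1) es T (s+1) = ∑_{p ∈ T} (1/p) es (T.erase p) s`: both sides are
  `∑_{(S,p) : S ⊆ T, #S = s+1, p ∈ S} ∏_{S} 1/p`.
* `es_lower`: `(s+1) es T (s+1) ≥ lm T * es T s - s0`, `s0 = ∑ 1/p^2`, when `lm T ≤ 1`: for `s = 0` `es (T.erase p) 0 = 1`; for `s ≥ 1`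
  `es (T.erase p) s = es T s - (1/p) es (T.erase p) (s-1) ≥ es T s - 1/p` as `es (T.erase p) (s-1) ≤ lm^(s-1)/(s-1)! ≤ 1`.
* `es_tendsto`: induction on `s`: `es ≤ lm^s/s! → c^s/s!`, and `es T (s+1) ≥ (lm T es T s - s0)/(s+1) → c c^s/s!/(s+1)`, where
  `s0 ≤ lm T / M → 0`.
-/

namespace Pool.Agent.H95.L1

open Finset Filter Topology

theorem es_nonneg (T : Finset ℕ) (s : ℕ) : 0 ≤ es T s := by
  unfold es
  exact sum_nonneg fun S _ => prod_nonneg fun p _ => by positivity

theorem es_zero (T : Finset ℕ) : es T 0 = 1 := by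
  unfold es
  rw [powersetCard_zero, sum_singleton, prod_empty]

theorem es_mono {T T' : Finset ℕ} (h : T ⊆ T') (s : ℕ) : es T s ≤ es T' s := by
  unfold es
  exact sum_le_sum_of_subset_of_nonneg (powersetCard_mono h)
    fun S _ _ => prod_nonneg fun p _ => by positivity

theorem es_insert {T : Finset ℕ} {q : ℕ} (hq : q ∉ T) (s : ℕ) :
    es (insert q T) (s + 1) = es T (s + 1) + 1 / (q : ℝ) * es T s := by
  unfold es
  rw [powersetCard_succ_insert hq, sum_union, sum_image, mul_sum]
  · congr 1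
    refine sum_congr rfl fun S hS => ?_
    rw [prod_insert fun h => hq ((mem_powersetCard.1 hS).1 h)]
  · intro S hS S' hS' h
    have h1 : q ∉ S := fun h => hq ((mem_powersetCard.1 hS).1 h)
    have h2 : q ∉ S' := fun h => hq ((mem_powersetCard.1 hS').1 h)
    have h3 : insert q S = insert q S' := h
    rw [← erase_insert h1, h3, erase_insert h2]
  · rw [disjoint_left]
    intro S hS hS'
    obtain ⟨S', _, rfl⟩ := mem_image.1 hS'
    exact hq ((mem_powersetCard.1 hS).1 (mem_insert_self _ _))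

theorem es_erase {T : Finset ℕ} {p : ℕ} (hp : p ∈ T) (s : ℕ) :
    es T (s + 1) = es (T.erase p) (s + 1) + 1 / (p : ℝ) * es (T.erase p) s := by
  rw [← es_insert (notMem_erase p T), insert_erase hp]

theorem es_succ (T : Finset ℕ) (s : ℕ) :
    ((s : ℝ) + 1) * es T (s + 1) = ∑ p ∈ T, 1 / (p : ℝ) * es (T.erase p) s := by
  induction T using Finset.induction_on generalizing s with
  | empty =>
    rw [sum_empty]
    have h1 : es ∅ (s + 1) = 0 := by
      unfold es
      rw [powersetCard_eq_empty.2 (by simp), sum_empty]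
    rw [h1, mul_zero]
  | insert q T hq ih =>
    rw [sum_insert hq, erase_insert hq, es_insert hq]
    have h1 : ∀ p ∈ T, (insert q T).erase p = insert q (T.erase p) := by
      intro p hp
      rw [erase_insert_of_ne]
      rintro rfl
      exact hq hp
    have h2 : ∀ p ∈ T, q ∉ T.erase p := fun p _ h => hq (mem_of_mem_erase h)
    rcases s with _ | s
    · have h3 : ∑ p ∈ T, 1 / (p : ℝ) * es ((insert q T).erase p) 0 =
          ∑ p ∈ T, 1 / (p : ℝ) * es (T.erase p) 0 :=
        sum_congr rfl fun p _ => by rw [es_zero, es_zero]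
      rw [h3, ← ih 0]
      push_cast
      ring
    · have h3 : ∑ p ∈ T, 1 / (p : ℝ) * es ((insert q T).erase p) (s + 1) =
          ∑ p ∈ T, 1 / (p : ℝ) * es (T.erase p) (s + 1) +
            1 / (q : ℝ) * ∑ p ∈ T, 1 / (p : ℝ) * es (T.erase p) s := by
        rw [mul_sum, ← sum_add_distrib]
        refine sum_congr rfl fun p hp => ?_
        rw [h1 p hp, es_insert (h2 p hp)]
        ring
      rw [h3, ← ih (s + 1), ← ih s]
      push_cast
      ring

theorem es_lm_nonneg (T : Finset ℕ) : 0 ≤ lm T := by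
  unfold lm
  exact sum_nonneg fun p _ => by positivity

theorem es_upper (T : Finset ℕ) (s : ℕ) : ((s : ℝ) + 1) * es T (s + 1) ≤ lm T * es T s := by
  rw [es_succ]
  unfold lm
  rw [sum_mul]
  refine sum_le_sum fun p _ => ?_
  exact mul_le_mul_of_nonneg_left (es_mono (erase_subset p T) s) (by positivity)

theorem es_le (T : Finset ℕ) (s : ℕ) : es T s ≤ lm T ^ s / s.factorial := by
  induction s with
  | zero => rw [es_zero]; simp
  | succ s ih =>
    have h1 := es_upper T s
    have h2 : lm T * es T s ≤ lm T * (lm T ^ s / s.factorial) :=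
      mul_le_mul_of_nonneg_left ih (es_lm_nonneg T)
    have h3 : (0 : ℝ) < (s : ℝ) + 1 := by positivity
    have h4 : (0 : ℝ) < (s.factorial : ℝ) := by exact_mod_cast s.factorial_pos
    rw [Nat.factorial_succ]
    push_cast
    rw [le_div_iff₀ (by positivity)]
    have h5 : lm T * (lm T ^ s / s.factorial) = lm T ^ (s + 1) / s.factorial := by
      rw [pow_succ]
      ring
    rw [h5] at h2
    have h6 := h1.trans h2
    rw [le_div_iff₀ h4] at h6
    calc es T (s + 1) * (((s : ℝ) + 1) * s.factorial) =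
          ((s : ℝ) + 1) * es T (s + 1) * s.factorial := by ring
      _ ≤ lm T ^ (s + 1) := h6

theorem es_le_one {T : Finset ℕ} (hl : lm T ≤ 1) (s : ℕ) : es T s ≤ 1 := by
  refine (es_le T s).trans ?_
  have h1 : (1 : ℝ) ≤ (s.factorial : ℝ) := by exact_mod_cast s.factorial_pos
  rw [div_le_one (by linarith)]
  exact (pow_le_one₀ (es_lm_nonneg T) hl).trans h1

theorem es_lower (T : Finset ℕ) (hl : lm T ≤ 1) (M : ℝ) (hM : 0 < M) (hT : ∀ p ∈ T, M ≤ (p : ℝ))
    (s : ℕ) : lm T * es T s - lm T / M ≤ ((s : ℝ) + 1) * es T (s + 1) := by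
  rw [es_succ]
  have h1 : ∀ p ∈ T, es T s - 1 / M ≤ es (T.erase p) s := by
    intro p hp
    rcases s with _ | s
    · rw [es_zero, es_zero]
      have : 0 < 1 / M := by positivity
      linarith
    · rw [es_erase hp]
      have h2 : lm (T.erase p) ≤ 1 := by
        refine le_trans ?_ hl
        unfold lm
        exact sum_le_sum_of_subset_of_nonneg (erase_subset p T) fun _ _ _ => by positivity
      have h3 := es_le_one h2 s
      have h4 : 1 / (p : ℝ) ≤ 1 / M := one_div_le_one_div_of_le hM (hT p hp)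
      have h5 : 1 / (p : ℝ) * es (T.erase p) s ≤ 1 / M * 1 :=
        mul_le_mul h4 h3 (es_nonneg _ _) (by positivity)
      linarith
  have h2 : lm T * es T s - lm T / M = ∑ p ∈ T, 1 / (p : ℝ) * (es T s - 1 / M) := by
    rw [← sum_mul]
    unfold lm
    ring
  rw [h2]
  exact sum_le_sum fun p hp => mul_le_mul_of_nonneg_left (h1 p hp) (by positivity)

theorem es_tendsto (T : ℝ → Finset ℕ) (c : ℝ) (hc : 0 ≤ c) (hc1 : c < 1)
    (hl : Tendsto (fun x => lm (T x)) atTop (𝓝 c))
    (hM : ∀ M : ℝ, ∀ᶠ x in atTop, ∀ p ∈ T x, M ≤ (p : ℝ)) (s : ℕ) :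
    Tendsto (fun x => es (T x) s) atTop (𝓝 (c ^ s / s.factorial)) := by
  induction s with
  | zero =>
    have h1 : (fun x => es (T x) 0) = fun _ => (1 : ℝ) := by
      ext x
      rw [es_zero]
    rw [h1]
    simp
  | succ s ih =>
    have h3 : (0 : ℝ) < (s : ℝ) + 1 := by positivity
    have h4 : (0 : ℝ) < (s.factorial : ℝ) := by exact_mod_cast s.factorial_pos
    have e1 : Tendsto (fun x => lm (T x) ^ (s + 1) / ((s + 1).factorial : ℝ)) atTop
        (𝓝 (c ^ (s + 1) / ((s + 1).factorial : ℝ))) := (hl.pow (s + 1)).div_const _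
    have e2 : Tendsto (fun x => lm (T x) * es (T x) s / ((s : ℝ) + 1)) atTop
        (𝓝 (c * (c ^ s / s.factorial) / ((s : ℝ) + 1))) := (hl.mul ih).div_const _
    have e3 : c * (c ^ s / s.factorial) / ((s : ℝ) + 1) =
        c ^ (s + 1) / ((s + 1).factorial : ℝ) := by
      rw [Nat.factorial_succ, pow_succ]
      push_cast
      field_simp
    rw [e3] at e2
    rw [tendsto_order]
    constructor
    · intro a ha
      obtain ⟨l, hld⟩ : ∃ l : ℝ, l = c ^ (s + 1) / ((s + 1).factorial : ℝ) := ⟨_, rfl⟩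
      rw [← hld] at e2 ha
      have h5 : 0 < l - a := by linarith
      have h6 : ∀ᶠ x in atTop, (l + a) / 2 < lm (T x) * es (T x) s / ((s : ℝ) + 1) :=
        e2.eventually_const_lt (by linarith)
      have h7 : ∀ᶠ x in atTop, lm (T x) < 1 := hl.eventually_lt_const hc1
      have hM0 : 0 < 2 / (l - a) := by positivity
      filter_upwards [h6, h7, hM (2 / (l - a))] with x hx1 hx2 hx3
      have h8 := es_lower (T x) hx2.le (2 / (l - a)) hM0 hx3 s
      have h9 : lm (T x) / (2 / (l - a)) ≤ (l - a) / 2 := by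
        rw [div_div_eq_mul_div, div_le_div_iff_of_pos_right (by norm_num)]
        nlinarith
      have h10 : (l + a) / 2 * ((s : ℝ) + 1) < lm (T x) * es (T x) s := by
        rwa [lt_div_iff₀ h3] at hx1
      have h11 : (l - a) / 2 ≤ (l - a) / 2 * ((s : ℝ) + 1) := by
        have : (0 : ℝ) ≤ s := Nat.cast_nonneg s
        nlinarith
      have h12 : a * ((s : ℝ) + 1) < ((s : ℝ) + 1) * es (T x) (s + 1) := by nlinarith
      rw [mul_comm] at h12
      exact lt_of_mul_lt_mul_left h12 h3.le
    · intro a ha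
      filter_upwards [e1.eventually_lt_const ha] with x hx
      exact (es_le (T x) (s + 1)).trans_lt hx

end Pool.Agent.H95.L1
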