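import Pool.Agent.H95.L1.Qk
import Pool.Agent.H95.L1.Esy

/-!
[H95 L1 DIS]  The sum over the disjoint families.

* `sum_All`: `1/qk k = ∏_j ∏_i ∏_{p ∈ k j i} 1/p`, `Finset.prod_univ_sum` twice backwards.
* `GA_le`: `Fam ⊆ All`, terms `≥ 0`.
* `GA_ge`: a family `k ∈ All` which is not disjoint has `p ∈ k j i ∩ k j' i` with `j ≠ j'` (`i = i'` since the `T i` are disjoint), so
  `∑_{All \ Fam} 1/qk k ≤ ∑_{j ≠ j'} ∑_i ∑_{p ∈ T i} ∑_{k ∈ All, p ∈ k j i, p ∈ k j' i} 1/qk k`, and by `prod_univ_sum` the inner sum is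
  `(∑_{S ∋ p, #S = A j i} ∏ 1/p) (∑_{S ∋ p, #S = A j' i} ∏ 1/p) ∏_{others} es ≤ (1/p)^2`, because
  `∑_{S ∋ p, #S = s+1, S ⊆ T} ∏_S 1/p = (1/p) es (T.erase p) s ≤ 1/p` (`es ≤ lm^s/s! ≤ 1`; for `s + 1 = 0` the sum is empty).
  Hence `≤ K^2 ∑_i ∑_{p ∈ T i} 1/p^2 ≤ K^2 L / y` (`1/p^2 ≤ (1/y)(1/p)`, `lm (T i) ≤ 1`).
  (Compare `pair_le` in `Pool/Agent/H11/PT/Mai.lean`.)
-/

namespace Pool.Agent.H95.L1

open Finset Filter Topology

variable {ι : Type} [Fintype ι] [DecidableEq ι] {L : ℕ}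

omit [DecidableEq ι] in
theorem dis_sum_All [DecidableEq ι] (T : Fin L → Finset ℕ) (A : ι → Fin L → ℕ)
    (w : ι → Fin L → Finset ℕ → ℝ) :
    ∑ k ∈ All T A, ∏ j, ∏ i, w j i (k j i) =
      ∏ j, ∏ i, ∑ S ∈ (T i).powersetCard (A j i), w j i S := by
  have h1 : ∀ j, ∏ i, ∑ S ∈ (T i).powersetCard (A j i), w j i S =
      ∑ k ∈ Fintype.piFinset fun i => (T i).powersetCard (A j i), ∏ i, w j i (k i) := fun j => by
    rw [Finset.prod_univ_sum]
  simp only [h1]
  rw [Finset.prod_univ_sum]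
  rfl

omit [DecidableEq ι] in
theorem dis_qk (k : ι → Fin L → Finset ℕ) :
    1 / (qk k : ℝ) = ∏ j, ∏ i, ∏ p ∈ k j i, (1 / (p : ℝ)) := by
  unfold qk
  push_cast
  simp only [one_div, Finset.prod_inv_distrib]

theorem sum_All (T : Fin L → Finset ℕ) (A : ι → Fin L → ℕ) :
    ∑ k ∈ All T A, 1 / (qk k : ℝ) = ∏ j, ∏ i, es (T i) (A j i) := by
  unfold es
  rw [← dis_sum_All T A (fun _ _ S => ∏ p ∈ S, (1 / (p : ℝ)))]
  exact Finset.sum_congr rfl fun k _ => dis_qk k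

theorem GA_nonneg (T : Fin L → Finset ℕ) (A : ι → Fin L → ℕ) : 0 ≤ GA T A := by
  unfold GA
  exact Finset.sum_nonneg fun k _ => by positivity

theorem GA_le (T : Fin L → Finset ℕ) (A : ι → Fin L → ℕ) : GA T A ≤ ∏ j, ∏ i, es (T i) (A j i) := by
  classical
  rw [← sum_All]
  unfold GA Fam
  exact Finset.sum_le_sum_of_subset_of_nonneg (Finset.filter_subset _ _)
    fun k _ _ => by positivity

omit [DecidableEq ι] [Fintype ι] in
theorem dis_lm_nonneg (T : Finset ℕ) : 0 ≤ lm T := Finset.sum_nonneg fun p _ => by positivity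

theorem dis_es_le_one {T : Finset ℕ} (hl : lm T ≤ 1) (s : ℕ) : es T s ≤ 1 := by
  refine (es_le T s).trans ?_
  have h1 : (1 : ℝ) ≤ s.factorial := by exact_mod_cast Nat.factorial_pos s
  rw [div_le_one (by linarith)]
  exact (pow_le_one₀ (dis_lm_nonneg T) hl).trans h1

theorem dis_special {T : Finset ℕ} (hl : lm T ≤ 1) {p : ℕ} (s : ℕ) :
    ∑ S ∈ T.powersetCard s, (if p ∈ S then ∏ r ∈ S, (1 / (r : ℝ)) else 0) ≤ 1 / (p : ℝ) := by
  classical
  rcases s with _ | s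
  · rw [Finset.powersetCard_zero, Finset.sum_singleton, if_neg (Finset.notMem_empty p)]
    positivity
  · rw [← Finset.sum_filter]
    have h1 : ∀ S ∈ (T.powersetCard (s + 1)).filter (fun S => p ∈ S),
        ∏ r ∈ S, (1 / (r : ℝ)) = 1 / (p : ℝ) * ∏ r ∈ S.erase p, (1 / (r : ℝ)) := by
      intro S hS
      rw [Finset.mem_filter] at hS
      rw [Finset.mul_prod_erase S (fun r => 1 / (r : ℝ)) hS.2]
    rw [Finset.sum_congr rfl h1, ← Finset.mul_sum]
    have h2 : ∑ S ∈ (T.powersetCard (s + 1)).filter (fun S => p ∈ S),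
        ∏ r ∈ S.erase p, (1 / (r : ℝ)) ≤ es (T.erase p) s := by
      have h3 : ∑ S ∈ (T.powersetCard (s + 1)).filter (fun S => p ∈ S),
          ∏ r ∈ S.erase p, (1 / (r : ℝ)) =
          ∑ S' ∈ (((T.powersetCard (s + 1)).filter (fun S => p ∈ S)).image
            (fun S : Finset ℕ => S.erase p) : Finset (Finset ℕ)),
            ∏ r ∈ (S' : Finset ℕ), (1 / ((r : ℕ) : ℝ)) := by
        rw [Finset.sum_image]
        intro S hS S' hS' h
        rw [Finset.mem_coe, Finset.mem_filter] at hS hS'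
        have h4 : S.erase p = S'.erase p := h
        rw [← Finset.insert_erase hS.2, ← Finset.insert_erase hS'.2, h4]
      rw [h3]
      unfold es
      refine Finset.sum_le_sum_of_subset_of_nonneg
        (f := fun S : Finset ℕ => ∏ r ∈ S, (1 / (r : ℝ))) ?_ fun S _ _ =>
        Finset.prod_nonneg fun r _ => by positivity
      intro S' hS'
      rw [Finset.mem_image] at hS'
      obtain ⟨S, hS, rfl⟩ := hS'
      rw [Finset.mem_filter, Finset.mem_powersetCard] at hS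
      rw [Finset.mem_powersetCard]
      refine ⟨Finset.erase_subset_erase p hS.1.1, ?_⟩
      rw [Finset.card_erase_of_mem hS.2, hS.1.2]
      omega
    have h5 : lm (T.erase p) ≤ 1 := by
      refine le_trans ?_ hl
      exact Finset.sum_le_sum_of_subset_of_nonneg (Finset.erase_subset _ _)
        fun r _ _ => by positivity
    calc 1 / (p : ℝ) * ∑ S ∈ (T.powersetCard (s + 1)).filter (fun S => p ∈ S),
          ∏ r ∈ S.erase p, (1 / (r : ℝ)) ≤ 1 / (p : ℝ) * 1 :=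
          mul_le_mul_of_nonneg_left (h2.trans (dis_es_le_one h5 s)) (by positivity)
      _ = 1 / (p : ℝ) := mul_one _

/-- the families with a common prime at `j` and `j'` -/
theorem dis_pair (T : Fin L → Finset ℕ) (A : ι → Fin L → ℕ) (hl : ∀ i, lm (T i) ≤ 1)
    {j j' : ι} (hj : j ≠ j') (i : Fin L) (p : ℕ) :
    ∑ k ∈ All T A, (if p ∈ k j i ∧ p ∈ k j' i then 1 / (qk k : ℝ) else 0) ≤ (1 / (p : ℝ)) ^ 2 := by
  classical
  obtain ⟨w, hw⟩ : ∃ w : ι → Fin L → Finset ℕ → ℝ, w = fun (j0 : ι) (i0 : Fin L) (S : Finset ℕ) =>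
    if i0 = i ∧ (j0 = j ∨ j0 = j') then (if p ∈ S then ∏ r ∈ S, (1 / (r : ℝ)) else 0)
      else ∏ r ∈ S, (1 / (r : ℝ)) := ⟨_, rfl⟩
  have hw0 : ∀ j0 i0 S, 0 ≤ w j0 i0 S := by
    intro j0 i0 S
    have h0 : 0 ≤ ∏ r ∈ S, (1 / (r : ℝ)) := Finset.prod_nonneg fun r _ => by positivity
    rw [hw]
    dsimp only
    split_ifs <;> first | exact h0 | exact le_refl 0
  have h1 : ∀ k ∈ All T A, (if p ∈ k j i ∧ p ∈ k j' i then 1 / (qk k : ℝ) else 0) ≤
      ∏ j0, ∏ i0, w j0 i0 (k j0 i0) := by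
    intro k _
    by_cases h : p ∈ k j i ∧ p ∈ k j' i
    · rw [if_pos h, dis_qk]
      refine le_of_eq (Finset.prod_congr rfl fun j0 _ => Finset.prod_congr rfl fun i0 _ => ?_)
      rw [hw]
      dsimp only
      by_cases h2 : i0 = i ∧ (j0 = j ∨ j0 = j')
      · rw [if_pos h2]
        obtain ⟨rfl, h3⟩ := h2
        rcases h3 with rfl | rfl
        · rw [if_pos h.1]
        · rw [if_pos h.2]
      · rw [if_neg h2]
    · rw [if_neg h]
      exact Finset.prod_nonneg fun j0 _ => Finset.prod_nonneg fun i0 _ => hw0 _ _ _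
  refine (Finset.sum_le_sum h1).trans ?_
  rw [dis_sum_All]
  have h2 : ∀ j0 i0, ∑ S ∈ (T i0).powersetCard (A j0 i0), w j0 i0 S ≤
      if i0 = i then (if j0 = j ∨ j0 = j' then 1 / (p : ℝ) else 1) else 1 := by
    intro j0 i0
    rw [hw]
    dsimp only
    by_cases h3 : i0 = i
    · rw [if_pos h3]
      by_cases h4 : j0 = j ∨ j0 = j'
      · rw [if_pos h4]
        simp only [h3, h4, and_self, if_true]
        exact dis_special (hl i) _
      · rw [if_neg h4]
        simp only [h4, and_false, if_false]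
        exact dis_es_le_one (hl i0) _
    · rw [if_neg h3]
      simp only [h3, false_and, if_false]
      exact dis_es_le_one (hl i0) _
  have h3 : ∏ j0, ∏ i0, ∑ S ∈ (T i0).powersetCard (A j0 i0), w j0 i0 S ≤
      ∏ j0 : ι, ∏ i0, if i0 = i then (if j0 = j ∨ j0 = j' then 1 / (p : ℝ) else 1) else 1 := by
    refine Finset.prod_le_prod (fun j0 _ => Finset.prod_nonneg fun i0 _ =>
      Finset.sum_nonneg fun S _ => hw0 _ _ _) fun j0 _ => ?_
    exact Finset.prod_le_prod (fun i0 _ => Finset.sum_nonneg fun S _ => hw0 _ _ _)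
      fun i0 _ => h2 j0 i0
  refine h3.trans (le_of_eq ?_)
  have h4 : ∀ j0 : ι, (∏ i0, if i0 = i then (if j0 = j ∨ j0 = j' then 1 / (p : ℝ) else 1) else 1) =
      if j0 = j ∨ j0 = j' then 1 / (p : ℝ) else 1 := fun j0 => by
    rw [Finset.prod_ite_eq' Finset.univ i (fun _ => if j0 = j ∨ j0 = j' then 1 / (p : ℝ) else 1),
      if_pos (Finset.mem_univ i)]
  rw [Finset.prod_congr rfl fun j0 _ => h4 j0, Finset.prod_ite, Finset.prod_const,
    Finset.prod_const_one, mul_one]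
  congr 1
  have h5 : (Finset.univ.filter fun j0 : ι => j0 = j ∨ j0 = j') = {j, j'} := by
    ext j0
    simp
  rw [h5, Finset.card_pair hj]

theorem GA_ge (T : Fin L → Finset ℕ) (A : ι → Fin L → ℕ) (hT : ∀ i, ∀ p ∈ T i, p.Prime)
    (hTd : ∀ i i', i ≠ i' → Disjoint (T i) (T i')) (hl : ∀ i, lm (T i) ≤ 1) (y : ℝ) (hy : 0 < y)
    (hTy : ∀ i, ∀ p ∈ T i, y ≤ (p : ℝ)) :
    ∏ j, ∏ i, es (T i) (A j i) - (Fintype.card ι : ℝ) ^ 2 * L / y ≤ GA T A := by
  classical
  rw [← sum_All, sub_le_iff_le_add]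
  have h0 : ∑ k ∈ All T A, 1 / (qk k : ℝ) = GA T A +
      ∑ k ∈ All T A, (if Dsj k then 0 else 1 / (qk k : ℝ)) := by
    unfold GA Fam
    rw [Finset.sum_filter, ← Finset.sum_add_distrib]
    refine Finset.sum_congr rfl fun k _ => ?_
    by_cases h : Dsj k
    · rw [if_pos h, if_pos h, add_zero]
    · rw [if_neg h, if_neg h, zero_add]
  rw [h0]
  refine add_le_add le_rfl ?_
  obtain ⟨f, hf⟩ : ∃ f : (Σ _ : ι × ι × Fin L, ℕ) → (ι → Fin L → Finset ℕ) → ℝ,
    f = fun x k => if x.1.1 ≠ x.1.2.1 then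
      (if x.2 ∈ k x.1.1 x.1.2.2 ∧ x.2 ∈ k x.1.2.1 x.1.2.2 then 1 / (qk k : ℝ) else 0) else 0 :=
    ⟨_, rfl⟩
  have hf0 : ∀ x k, 0 ≤ f x k := by
    intro x k
    rw [hf]
    dsimp only
    split_ifs <;> positivity
  obtain ⟨Q, hQ⟩ : ∃ Q : Finset (Σ _ : ι × ι × Fin L, ℕ),
    Q = (Finset.univ : Finset (ι × ι × Fin L)).sigma fun x => T x.2.2 := ⟨_, rfl⟩
  have h1 : ∀ k ∈ All T A, (if Dsj k then 0 else 1 / (qk k : ℝ)) ≤ ∑ x ∈ Q, f x k := by
    intro k hk
    by_cases h : Dsj k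
    · rw [if_pos h]
      exact Finset.sum_nonneg fun x _ => hf0 x k
    · rw [if_neg h]
      unfold Dsj at h
      push Not at h
      obtain ⟨j, i, j', i', hne, hd⟩ := h
      rw [Finset.not_disjoint_iff] at hd
      obtain ⟨p, hp, hp'⟩ := hd
      rw [mem_All] at hk
      have hpi := (hk j i).1 hp
      have hpi' := (hk j' i').1 hp'
      have hii : i = i' := by
        by_contra hii
        exact Finset.disjoint_left.mp (hTd i i' hii) hpi hpi'
      subst hii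
      have hjj : j ≠ j' := fun hjj => hne (by rw [hjj])
      have hx : (⟨(j, j', i), p⟩ : Σ _ : ι × ι × Fin L, ℕ) ∈ Q := by
        rw [hQ, Finset.mem_sigma]
        exact ⟨Finset.mem_univ _, hpi⟩
      have h2 : f ⟨(j, j', i), p⟩ k = 1 / (qk k : ℝ) := by
        rw [hf]
        dsimp only
        rw [if_pos hjj, if_pos ⟨hp, hp'⟩]
      rw [← h2]
      exact Finset.single_le_sum (f := fun x => f x k) (fun x _ => hf0 x k) hx
  refine (Finset.sum_le_sum h1).trans ?_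
  rw [Finset.sum_comm]
  have h2 : ∀ x ∈ Q, ∑ k ∈ All T A, f x k ≤ (1 / (x.2 : ℝ)) ^ 2 := by
    intro x _
    by_cases hx : x.1.1 ≠ x.1.2.1
    · have h3 := dis_pair T A hl hx x.1.2.2 x.2
      refine le_trans (le_of_eq ?_) h3
      refine Finset.sum_congr rfl fun k _ => ?_
      rw [hf]
      dsimp only
      rw [if_pos hx]
    · have h3 : ∑ k ∈ All T A, f x k = 0 := by
        refine Finset.sum_eq_zero fun k _ => ?_
        rw [hf]
        dsimp only
        rw [if_neg hx]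
      rw [h3]
      positivity
  refine (Finset.sum_le_sum h2).trans ?_
  rw [hQ, Finset.sum_sigma]
  have h3 : ∀ x ∈ (Finset.univ : Finset (ι × ι × Fin L)),
      ∑ p ∈ T x.2.2, (1 / (p : ℝ)) ^ 2 ≤ 1 / y := by
    intro x _
    have h4 : ∑ p ∈ T x.2.2, (1 / (p : ℝ)) ^ 2 ≤ ∑ p ∈ T x.2.2, 1 / y * (1 / (p : ℝ)) := by
      refine Finset.sum_le_sum fun p hp => ?_
      rw [sq]
      exact mul_le_mul_of_nonneg_right (one_div_le_one_div_of_le hy (hTy _ p hp)) (by positivity)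
    refine h4.trans ?_
    rw [← Finset.mul_sum]
    calc 1 / y * ∑ p ∈ T x.2.2, (1 / (p : ℝ)) ≤ 1 / y * 1 :=
          mul_le_mul_of_nonneg_left (hl _) (by positivity)
      _ = 1 / y := mul_one _
  refine (Finset.sum_le_sum h3).trans (le_of_eq ?_)
  rw [Finset.sum_const, Finset.card_univ, Fintype.card_prod, Fintype.card_prod, Fintype.card_fin,
    nsmul_eq_mul]
  push_cast
  ring

end Pool.Agent.H95.L1
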