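import Pool.Agent.H95.L1.Def
import Pool.Agent.H75.AP.MertensB
import Pool.Agent.H43.TP.Mert

/-!
[H95 L1 MER]  Mertens for one range: `∑_{x^α ≤ p < x^(2α)} 1/p → log 2`.

`u = x^α`, `v = u^2`.  `mertens_ratio 2 ε` (upper bound for the primes of `(u, v]`), `mert_ratio_low 2 ε` (lower bound,
`Pool/Agent/H43/TP/Mert.lean`); the sets `[u, v)` and `(u, v]` differ by at most one element at each end, of weight
`≤ 1/u → 0`.
-/

namespace Pool.Agent.H95.L1

open Finset Filter Topology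

private theorem mer_mem (x α β : ℝ) (p : ℕ) :
    p ∈ Pool.Agent.H92.MM.rg x α β ↔ (p : ℝ) < x ^ β ∧ p.Prime ∧ x ^ α ≤ (p : ℝ) := by
  unfold Pool.Agent.H92.MM.rg
  rw [mem_filter, mem_range, Nat.lt_ceil]

private theorem mer_diff (A B : Finset ℕ) (u w : ℝ) (hu : 0 < u)
    (h : ∀ p ∈ A, p ∉ B → (p : ℝ) = w) (hw : u ≤ w) :
    ∑ p ∈ A, 1 / (p : ℝ) ≤ ∑ p ∈ B, 1 / (p : ℝ) + 1 / u := by
  classical
  have h1 : ∑ p ∈ A, 1 / (p : ℝ) = ∑ p ∈ A \ B, 1 / (p : ℝ) + ∑ p ∈ A ∩ B, 1 / (p : ℝ) := by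
    rw [← Finset.sum_union]
    · congr 1
      ext p
      simp only [mem_union, Finset.mem_sdiff, mem_inter]
      tauto
    · rw [Finset.disjoint_left]
      intro p hp hq
      rw [Finset.mem_sdiff] at hp
      rw [mem_inter] at hq
      exact hp.2 hq.2
  have h2 : ∑ p ∈ A ∩ B, 1 / (p : ℝ) ≤ ∑ p ∈ B, 1 / (p : ℝ) :=
    Finset.sum_le_sum_of_subset_of_nonneg inter_subset_right fun p _ _ => by positivity
  have hcard : (A \ B).card ≤ 1 := by
    rw [Finset.card_le_one]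
    intro p hp q hq
    rw [Finset.mem_sdiff] at hp hq
    have e1 := h p hp.1 hp.2
    have e2 := h q hq.1 hq.2
    rw [← e2] at e1
    exact_mod_cast e1
  have h3 : ∑ p ∈ A \ B, 1 / (p : ℝ) ≤ 1 / u := by
    have h4 : ∀ p ∈ A \ B, 1 / (p : ℝ) ≤ 1 / u := by
      intro p hp
      rw [Finset.mem_sdiff] at hp
      rw [h p hp.1 hp.2]
      exact one_div_le_one_div_of_le hu hw
    refine (Finset.sum_le_card_nsmul _ _ _ h4).trans ?_
    rw [nsmul_eq_mul]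
    have h5 : ((A \ B).card : ℝ) ≤ 1 := by exact_mod_cast hcard
    have h6 : 0 < 1 / u := by positivity
    nlinarith
  linarith

theorem lm_tendsto (α : ℝ) (hα : 0 < α) :
    Tendsto (fun x : ℝ => lm (Pool.Agent.H92.MM.rg x α (2 * α))) atTop (𝓝 (Real.log 2)) := by
  obtain ⟨β, hβ⟩ : ∃ β : ℝ, β = 2 * α := ⟨_, rfl⟩
  rw [← hβ, Metric.tendsto_atTop']
  intro ε hε
  obtain ⟨u1, hu1, h1⟩ := Pool.Agent.H75.AP.mertens_ratio 2 (ε / 3) (by norm_num) (by positivity)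
  obtain ⟨u2, hu2, h2⟩ := Pool.Agent.H43.TP.mert_ratio_low 2 (ε / 3) (by norm_num) (by positivity)
  have hev : ∀ᶠ x : ℝ in atTop, max (max u1 u2) (3 / ε + 1) ≤ x ^ α :=
    (tendsto_rpow_atTop hα).eventually_ge_atTop _
  obtain ⟨X0, hX0⟩ := Filter.eventually_atTop.1 hev
  refine ⟨max X0 1, fun x hx => ?_⟩
  have hx0 : X0 ≤ x := (le_max_left _ _).trans hx.le
  have hx1 : 1 ≤ x := (le_max_right _ _).trans hx.le
  have hb := hX0 x hx0
  set u : ℝ := x ^ α with hu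
  have hu1' : u1 ≤ u := ((le_max_left _ _).trans (le_max_left _ _)).trans hb
  have hu2' : u2 ≤ u := ((le_max_right _ _).trans (le_max_left _ _)).trans hb
  have hu3 : 3 / ε + 1 ≤ u := (le_max_right _ _).trans hb
  have hu0 : 1 < u := by
    have : 0 < 3 / ε := by positivity
    linarith
  have hv : x ^ β = u ^ (2 : ℝ) := by
    rw [hu, ← Real.rpow_mul (by linarith), hβ, mul_comm]
  have huv : u ≤ u ^ (2 : ℝ) := by
    have := Real.rpow_le_rpow_of_exponent_le hu0.le (show (1:ℝ) ≤ 2 by norm_num)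
    rwa [Real.rpow_one] at this
  have hA := h1 u (u ^ (2 : ℝ)) hu1' le_rfl
  have hB := h2 u (u ^ (2 : ℝ)) hu2' le_rfl
  have hC : ∑ p ∈ Pool.Agent.H92.MM.rg x α β, 1 / (p : ℝ) ≤
      ∑ p ∈ Pool.Agent.H75.AP.PI u (u ^ (2 : ℝ)), 1 / (p : ℝ) + 1 / u := by
    refine mer_diff _ _ u u (by linarith) ?_ le_rfl
    intro p hp hn
    rw [mer_mem] at hp
    rw [Pool.Agent.H75.AP.MertB.mem_PI (by linarith)] at hn
    by_contra hne
    apply hn
    refine ⟨hp.2.1, lt_of_le_of_ne hp.2.2 (Ne.symm hne), ?_⟩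
    rw [← hv]
    exact hp.1.le
  have hD : ∑ p ∈ Pool.Agent.H75.AP.PI u (u ^ (2 : ℝ)), 1 / (p : ℝ) ≤
      ∑ p ∈ Pool.Agent.H92.MM.rg x α β, 1 / (p : ℝ) + 1 / u := by
    refine mer_diff _ _ u (u ^ (2 : ℝ)) (by linarith) ?_ huv
    intro p hp hn
    rw [mer_mem] at hn
    rw [Pool.Agent.H75.AP.MertB.mem_PI (by linarith)] at hp
    by_contra hne
    apply hn
    refine ⟨?_, hp.1, hp.2.1.le⟩
    rw [hv]
    exact lt_of_le_of_ne hp.2.2 hne
  have hE : 1 / u < ε / 3 := by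
    rw [div_lt_iff₀ (by linarith)]
    have : ε / 3 * (3 / ε + 1) ≤ ε / 3 * u := mul_le_mul_of_nonneg_left hu3 (by positivity)
    have h3 : ε / 3 * (3 / ε + 1) = 1 + ε / 3 := by field_simp
    linarith
  rw [Real.dist_eq, abs_lt]
  unfold lm
  constructor <;> linarith

theorem TI_lm (a : ℝ) (ha : 0 < a) (L : ℕ) (i : Fin L) :
    Tendsto (fun x : ℝ => lm (TI x a L i)) atTop (𝓝 (Real.log 2)) := by
  have h := lm_tendsto (a * 2 ^ (i : ℕ)) (by positivity)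
  have h2 : ∀ x : ℝ, TI x a L i = Pool.Agent.H92.MM.rg x (a * 2 ^ (i : ℕ)) (2 * (a * 2 ^ (i : ℕ))) := by
    intro x
    unfold TI
    congr 1
    rw [pow_succ]
    ring
  simpa only [h2] using h

end Pool.Agent.H95.L1
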