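import Pool.Agent.H95.L1.Dis
import Pool.Agent.H95.L1.Mer
import Pool.Agent.H95.L1.Rgs

/-!
[H95 L1 GLIM]  `GA (TI x a L) A → sv L A` as `x → ∞`.

`es (TI x a L i) s → (log 2)^s/s!` (`es_tendsto`, `TI_lm`, `TI_large`, `log 2 < 1`), so `∏_j ∏_i es → sv L A` (`tendsto_finset_prod`); squeeze with
`GA_le` and `GA_ge` (`y = x^a → ∞`; `lm ≤ 1` eventually because `log 2 < 1`).
-/

namespace Pool.Agent.H95.L1

open Finset Filter Topology Pool.Agent.H92.MM

theorem GA_tendsto {ι : Type} [Fintype ι] [DecidableEq ι] (a : ℝ) (ha : 0 < a) (L : ℕ)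
    (A : ι → Fin L → ℕ) : Tendsto (fun x : ℝ => GA (TI x a L) A) atTop (𝓝 (sv L A)) := by
  have hl0 : 0 ≤ Real.log 2 := Real.log_nonneg one_le_two
  have hl1 : Real.log 2 < 1 := by
    have := Real.log_two_lt_d9
    linarith
  have h1 : Tendsto (fun x : ℝ => ∏ j, ∏ i, es (TI x a L i) (A j i)) atTop (𝓝 (sv L A)) := by
    refine tendsto_finsetProd _ fun j _ => tendsto_finsetProd _ fun i _ => ?_
    exact es_tendsto (fun x => TI x a L i) (Real.log 2) hl0 hl1 (TI_lm a ha L i)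
      (fun M => TI_large ha L i M) (A j i)
  have h2 : Tendsto (fun x : ℝ => ∏ j, ∏ i, es (TI x a L i) (A j i) -
      (Fintype.card ι : ℝ) ^ 2 * L / x ^ a) atTop (𝓝 (sv L A)) := by
    have h3 : Tendsto (fun x : ℝ => (Fintype.card ι : ℝ) ^ 2 * L / x ^ a) atTop (𝓝 0) :=
      Tendsto.div_atTop tendsto_const_nhds (tendsto_rpow_atTop ha)
    have h4 := h1.sub h3
    rwa [sub_zero] at h4
  refine tendsto_of_tendsto_of_tendsto_of_le_of_le' h2 h1 ?_ ?_
  · have h3 : ∀ᶠ x : ℝ in atTop, ∀ i : Fin L, lm (TI x a L i) ≤ 1 := by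
      rw [eventually_all]
      intro i
      exact ((TI_lm a ha L i).eventually (eventually_le_nhds hl1))
    filter_upwards [h3, eventually_ge_atTop 1] with x hx hx1
    exact GA_ge (TI x a L) A (fun i p hp => (mem_TI.1 hp).1)
      (fun i i' h => TI_disj hx1 ha L i i' h) hx (x ^ a)
      (Real.rpow_pos_of_pos (zero_lt_one.trans_le hx1) _) (fun i p hp => TI_ge hx1 ha hp)
  · exact Eventually.of_forall fun x => GA_le (TI x a L) A

end Pool.Agent.H95.L1
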