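import Pool.Agent.H95.L1.Sum
import Pool.Agent.H95.L1.Glim
import Pool.Agent.H95.L1.Nrm

/-!
[H95 L1 ONE]  The law (L1).

`c0` from `FL.fundamental (1/8) (Θ+1)`.  Given `ι, a, L, h` (`K = card ι ≥ 1`, `a ≤ c0/K`): `w0` = max of the `w0` of the fundamental lemma,
`2K`, and `∑ h + 1` (so that primes `> w0` do not divide `h j - h j'`, `h` injective).  Let `w ≥ w0`, `W = primorial w`, `P = PP x a W`
(primes `w < p < x^a`), `T = TI x a L` (primes `≥ x^a`, not in `P`, `> w` for large `x`, so not dividing `W`).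
For large `x` and every `A` of level `≤ η`: `Av (sm A) = (sum of sm_sum)/nm`, so
`|Av (sm A) - GA| ≤ d GA + Y * 4 * #All / nm`, `d = exp(-(Θ+1)/a)`, `Y = x^(1/8)`, `#All ≤ x^(sl) ≤ x^η ≤ x^(1/8)` (`card_All_le`, `TI_card`, `prod_level`),
`nm ≥ x^(7/8)`: the second term is `≤ 4 x^(-5/8)`.  `GA → sv ≤ 1` (`log 2 < 1`).  The set of `A` with `sl a L A ≤ η` is finite (each
`A j i ≤ η/(2a)`), so for large `x`, for all these `A`: `|GA - sv| ≤ δ`, and `|Av - sv| ≤ d (1 + δ) + 4 x^(-5/8) + δ ≤ exp(-Θ/a)` for small `δ`,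
because `2 d = 2 exp(-1/a) exp(-Θ/a) ≤ exp(-Θ/a)/2` (`a ≤ 1/20`).
-/

namespace Pool.Agent.H95.L1

open Finset Filter Topology Pool.Agent.H92.MM

/-- there are finitely many exponents of bounded level -/
theorem lev_finite {ι : Type} [Fintype ι] (a η : ℝ) (ha : 0 < a) (L : ℕ) :
    {A : ι → Fin L → ℕ | sl a L A ≤ η}.Finite := by
  classical
  apply Set.Finite.subset (Set.finite_Iic (fun (_ : ι) (_ : Fin L) => ⌊η / a⌋₊))
  intro A hA j i
  simp only [Set.mem_ofPred_eq] at hA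
  apply Nat.le_floor
  rw [le_div_iff₀ ha]
  have h0 : ∀ j : ι, ∀ i : Fin L, 0 ≤ (A j i : ℝ) * (a * 2 ^ ((i : ℕ) + 1)) := by
    intro j i
    positivity
  have h1 : (A j i : ℝ) * (a * 2 ^ ((i : ℕ) + 1)) ≤ sl a L A := by
    unfold sl
    have h2 : (A j i : ℝ) * (a * 2 ^ ((i : ℕ) + 1)) ≤
        ∑ i : Fin L, (A j i : ℝ) * (a * 2 ^ ((i : ℕ) + 1)) :=
      single_le_sum (f := fun i : Fin L => (A j i : ℝ) * (a * 2 ^ ((i : ℕ) + 1)))
        (fun i _ => h0 j i) (mem_univ i)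
    refine h2.trans ?_
    exact single_le_sum (f := fun j : ι => ∑ i : Fin L, (A j i : ℝ) * (a * 2 ^ ((i : ℕ) + 1)))
      (fun j _ => sum_nonneg fun i _ => h0 j i) (mem_univ j)
  refine le_trans ?_ (h1.trans hA)
  have h3 : (1 : ℝ) ≤ 2 ^ ((i : ℕ) + 1) := one_le_pow₀ (by norm_num)
  have h4 : (0 : ℝ) ≤ A j i := by positivity
  apply mul_le_mul_of_nonneg_left _ h4
  nlinarith

theorem one_sv {ι : Type} [Fintype ι] (L : ℕ) (A : ι → Fin L → ℕ) : sv L A ≤ 1 := by
  unfold sv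
  have hf : ∀ n : ℕ, 0 ≤ Real.log 2 ^ n / (n.factorial : ℝ) ∧
      Real.log 2 ^ n / (n.factorial : ℝ) ≤ 1 := by
    intro n
    have h1 : 0 ≤ Real.log 2 := Real.log_nonneg (by norm_num)
    have h2 : Real.log 2 ≤ 1 := by linarith [Real.log_two_lt_d9]
    refine ⟨by positivity, ?_⟩
    rw [div_le_one (by positivity)]
    have h3 : (1 : ℝ) ≤ n.factorial := by exact_mod_cast Nat.factorial_pos n
    exact (pow_le_one₀ h1 h2).trans h3
  apply prod_le_one
  · intro j _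
    exact prod_nonneg fun i _ => (hf _).1
  · intro j _
    exact prod_le_one (fun i _ => (hf _).1) (fun i _ => (hf _).2)

theorem one_law (η Θ : ℝ) (hη : 0 < η) (hη1 : η ≤ 1 / 8) (hΘ : 0 < Θ) : OneLaw η Θ := by
  obtain ⟨c0, hc0, hc1, hF⟩ := Pool.Agent.H95.FL.fundamental (1 / 8) (Θ + 1) (by norm_num)
    (by linarith)
  refine ⟨c0, hc0, ?_⟩
  intro ι _ _ _ a L ha haL hKa h hinj
  have hK : 1 ≤ Fintype.card ι := Fintype.card_pos
  have hK' : (1 : ℝ) ≤ Fintype.card ι := by exact_mod_cast hK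
  obtain ⟨w1, hw1, hF1⟩ := hF (Fintype.card ι) hK
  have haK : a ≤ c0 / (Fintype.card ι : ℝ) := by
    rw [le_div_iff₀ (by linarith)]
    linarith
  have ha20 : a ≤ 1 / 20 := by
    have h1 : (1 : ℝ) ≤ 2 ^ L := one_le_pow₀ (by norm_num)
    nlinarith
  obtain ⟨x0, hx0, hF2⟩ := hF1 a ha haK
  refine ⟨max w1 (∑ j, h j + 1), ?_⟩
  intro w hw b hb
  have hw1' : w1 ≤ w := (le_max_left _ _).trans hw
  have hwh : ∑ j, h j + 1 ≤ w := (le_max_right _ _).trans hw
  have hKw : 2 * Fintype.card ι ≤ w := by omega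
  -- primes above `w` do not divide the differences
  have hdiff : ∀ p : ℕ, w < p → ∀ i j : ι, i ≠ j → ¬ (p : ℤ) ∣ (h i : ℤ) - h j := by
    intro p hp i j hij hdvd
    have hi : h i ≤ ∑ j, h j := single_le_sum (fun j _ => Nat.zero_le (h j)) (mem_univ i)
    have hj : h j ≤ ∑ j, h j := single_le_sum (fun j _ => Nat.zero_le (h j)) (mem_univ j)
    have hne : (h i : ℤ) - h j ≠ 0 := by
      intro h0
      apply hij
      apply hinj
      have : (h i : ℤ) = h j := by linarith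
      exact_mod_cast this
    have h2 := Int.le_of_dvd (abs_pos.2 hne) ((dvd_abs _ _).2 hdvd)
    have h3 : |(h i : ℤ) - h j| ≤ w := by
      rw [abs_le]
      constructor <;> omega
    omega
  set W : ℕ := primorial w with hWdef
  have hW0 : 0 < W := primorial_pos w
  have hpW : ∀ p : ℕ, p.Prime → ¬ p ∣ W → w < p := by
    intro p hp hpd
    by_contra hle
    push Not at hle
    apply hpd
    rw [hWdef]
    exact (hp.dvd_primorial_iff).2 hle
  set ε : ℝ := Real.exp (-(Θ / a)) with hε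
  have hεpos : 0 < ε := Real.exp_pos _
  have hfin := lev_finite (ι := ι) a η ha L
  have hev : ∀ᶠ x : ℝ in atTop, ∀ A ∈ {A : ι → Fin L → ℕ | sl a L A ≤ η},
      |GA (TI x a L) A - sv L A| ≤ min (ε / 8) 1 := by
    rw [Filter.eventually_all_finite hfin]
    intro A _
    have h1 := GA_tendsto a ha L A
    have h2 := (Metric.tendsto_nhds.1 h1) (min (ε / 8) 1) (by positivity)
    filter_upwards [h2] with x hx
    rw [Real.dist_eq] at hx
    exact hx.le
  have hpow : ∀ᶠ x : ℝ in atTop, 4 * x ^ (-(5 / 8) : ℝ) ≤ ε / 8 := by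
    have h1 : Tendsto (fun x : ℝ => 4 * x ^ (-(5 / 8) : ℝ)) atTop (𝓝 (4 * 0)) :=
      (tendsto_rpow_neg_atTop (by norm_num)).const_mul 4
    rw [mul_zero] at h1
    have h2 := h1.eventually (ge_mem_nhds (show (0 : ℝ) < ε / 8 by positivity))
    exact h2
  have hxw : ∀ᶠ x : ℝ in atTop, (w : ℝ) < x ^ a :=
    (tendsto_rpow_atTop ha).eventually_gt_atTop _
  filter_upwards [eventually_ge_atTop x0, eventually_ge_atTop (1 : ℝ), ud_win, mass_ge,
    nm_ge (Fintype.card ι) w hKw a (1 / 8) ha (by linarith) (by norm_num), hev, hpow, hxw]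
    with x hx hx1 hud hmass hnm hGA hsmall hwx
  intro A hA
  have hxpos : 0 < x := by linarith
  set P : Finset ℕ := PP x a W with hP
  have hPmem : ∀ p ∈ P, p.Prime ∧ ¬ p ∣ W ∧ (p : ℝ) < x ^ a := fun p hp => mem_PP.1 hp
  obtain ⟨fl, fu, hsand⟩ := hF2 x hx P (fun p hp => ⟨(hPmem p hp).1,
    lt_of_le_of_lt hw1' (hpW p (hPmem p hp).1 (hPmem p hp).2.1), (hPmem p hp).2.2.le⟩)
  have hs := hsand (fun p => (Fintype.card ι : ℝ) / p) (fun p hp => by
    have hp0 : (0 : ℝ) < p := by exact_mod_cast (hPmem p hp).1.pos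
    refine ⟨by positivity, ?_⟩
    apply div_le_div_of_nonneg_right _ hp0.le
    linarith)
  have hTI : ∀ i, ∀ p ∈ TI x a L i, p.Prime ∧ ¬ p ∣ W ∧ p ∉ P := by
    intro i p hp
    have h1 := TI_ge hx1 ha hp
    have h2 := (mem_TI.1 hp).1
    refine ⟨h2, ?_, ?_⟩
    · intro hd
      rw [hWdef] at hd
      have h3 := (h2.dvd_primorial_iff).1 hd
      have h4 : (p : ℝ) ≤ w := by exact_mod_cast h3
      linarith
    · intro hpP
      linarith [(hPmem p hpP).2.2]
  have hTIw : ∀ i, ∀ p ∈ TI x a L i, w < p := by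
    intro i p hp
    have h1 := TI_ge hx1 ha hp
    exact_mod_cast lt_of_lt_of_le hwx h1
  have hmain := sm_sum hud (fun N _ => (Pool.Agent.H21.MT.gw_pos x N).le)
    (by linarith : (0 : ℝ) ≤ mass x) h W b P hW0 (fun p hp => ⟨(hPmem p hp).1, (hPmem p hp).2.1⟩)
    (fun p hp => hdiff p (hpW p (hPmem p hp).1 (hPmem p hp).2.1))
    (x ^ (1 / 8 : ℝ)) (Real.exp (-((Θ + 1) / a))) fl fu hs (TI x a L) A hTI
    (fun i i' hii => TI_disj hx1 ha L i i' hii) (fun i p hp => hdiff p (hTIw i p hp)) (by positivity)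
  rw [← nm_eq x a W (Fintype.card ι)] at hmain
  set n : ℝ := nm x a W (Fintype.card ι) with hn
  have hn0 : 0 < n := lt_of_lt_of_le (by positivity) hnm
  -- the average
  have hAv : Av x a h W b (fun N => sm x a L h A N * (fun _ => (1 : ℝ)) N) =
      (∑ N ∈ (Tx x).filter (fun N => N % W = b % W ∧ Pool.Agent.H95.FL.DP h P N = ∅),
        Pool.Agent.H21.MT.gw x N *
          ∏ j, ∏ i, ((((TI x a L i).filter (· ∣ N + h j)).card.choose (A j i) : ℕ) : ℝ)) / n := by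
    unfold Av
    congr 1
    refine sum_congr ?_ ?_
    · ext N
      simp only [mem_filter]
      rw [adm_iff x a h w b hb N]
    · intro N _
      show Pool.Agent.H21.MT.gw x N * (sm x a L h A N * 1) = _
      rw [mul_one, sm_eq]
  have hcard : ((All (TI x a L) A).card : ℝ) ≤ x ^ (1 / 8 : ℝ) := by
    refine (card_All_le (TI x a L) A (fun i => x ^ (a * 2 ^ ((i : ℕ) + 1)))
      (fun i => TI_card hx1 i)).trans ?_
    rw [prod_level hxpos L A]
    exact Real.rpow_le_rpow_of_exponent_le hx1 (hA.trans hη1)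
  have hGAx := hGA A hA
  have hG1 : |GA (TI x a L) A - sv L A| ≤ ε / 8 := hGAx.trans (min_le_left _ _)
  have hG2 : GA (TI x a L) A ≤ 2 := by
    have h1 := (abs_le.1 (hGAx.trans (min_le_right _ _))).2
    have h2 := one_sv L A
    linarith
  have hd : Real.exp (-((Θ + 1) / a)) ≤ ε / 8 := by
    have h1 : Real.exp (-((Θ + 1) / a)) = Real.exp (-(Θ / a)) * Real.exp (-(1 / a)) := by
      rw [← Real.exp_add]; congr 1; ring
    rw [h1, ← hε]
    have h2 : Real.exp (-(1 / a)) ≤ 1 / 8 := by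
      have h3 : (20 : ℝ) ≤ 1 / a := by
        rw [le_div_iff₀ ha]; linarith
      have h4 : (8 : ℝ) ≤ Real.exp (1 / a) := by
        have := Real.add_one_le_exp (1 / a)
        linarith
      rw [Real.exp_neg, inv_eq_one_div]
      exact one_div_le_one_div_of_le (by norm_num) h4
    nlinarith
  have hx58 : x ^ (1 / 8 : ℝ) * 4 * x ^ (1 / 8 : ℝ) / n ≤ 4 * x ^ (-(5 / 8) : ℝ) := by
    rw [div_le_iff₀ hn0]
    have h1 : x ^ (1 / 8 : ℝ) * x ^ (1 / 8 : ℝ) = x ^ (-(5 / 8) : ℝ) * x ^ (1 - 1 / 8 : ℝ) := by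
      rw [← Real.rpow_add hxpos, ← Real.rpow_add hxpos]
      norm_num
    have h2 : 0 < x ^ (-(5 / 8) : ℝ) := Real.rpow_pos_of_pos hxpos _
    calc x ^ (1 / 8 : ℝ) * 4 * x ^ (1 / 8 : ℝ) = 4 * (x ^ (1 / 8 : ℝ) * x ^ (1 / 8 : ℝ)) := by ring
      _ = 4 * (x ^ (-(5 / 8) : ℝ) * x ^ (1 - 1 / 8 : ℝ)) := by rw [h1]
      _ ≤ 4 * (x ^ (-(5 / 8) : ℝ) * n) := by
          gcongr
      _ = _ := by ring
  have hstep : |Av x a h W b (fun N => sm x a L h A N * (fun _ => (1 : ℝ)) N) - GA (TI x a L) A| ≤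
      ε / 4 + ε / 8 := by
    rw [hAv]
    rw [show ∀ s g : ℝ, s / n - g = (s - n * g) / n from fun s g => by field_simp]
    rw [abs_div, abs_of_pos hn0, div_le_iff₀ hn0]
    refine hmain.trans ?_
    have h1 : Real.exp (-((Θ + 1) / a)) * n * GA (TI x a L) A ≤ ε / 4 * n := by
      have h2 : 0 ≤ GA (TI x a L) A := GA_nonneg _ _
      have h3 : Real.exp (-((Θ + 1) / a)) * GA (TI x a L) A ≤ ε / 8 * 2 := by
        apply mul_le_mul hd hG2 h2 (by positivity)
      nlinarith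
    have h4 : x ^ (1 / 8 : ℝ) * 4 * ((All (TI x a L) A).card : ℝ) ≤ ε / 8 * n := by
      have h5 : x ^ (1 / 8 : ℝ) * 4 * ((All (TI x a L) A).card : ℝ) ≤
          x ^ (1 / 8 : ℝ) * 4 * x ^ (1 / 8 : ℝ) := by
        gcongr
      refine h5.trans ?_
      have h6 := hx58.trans hsmall
      rwa [div_le_iff₀ hn0] at h6
    linarith
  have hfinal : |Av x a h W b (fun N => sm x a L h A N * (fun _ => (1 : ℝ)) N) - sv L A| ≤ ε := by
    calc _ ≤ |Av x a h W b (fun N => sm x a L h A N * (fun _ => (1 : ℝ)) N) - GA (TI x a L) A| +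
          |GA (TI x a L) A - sv L A| := abs_sub_le _ _ _
      _ ≤ (ε / 4 + ε / 8) + ε / 8 := add_le_add hstep hG1
      _ ≤ ε := by linarith
  rw [mul_one]
  exact hfinal

end Pool.Agent.H95.L1
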