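import Pool.Agent.H95.L1.Def
import Pool.Agent.H21.SH.Gx

/-!
[H95 L1 WIN]  The window `Tx x = (√x, x^(1+1/2000)]` with the weight `gw x`.

As `gw_apx`, `gw_massx` in `Pool/Agent/H21/SH/Gx.lean` (the window there is `(√x, x^2]`): `gw x` is `≤ 1`, increasing up to `⌊x⌋₊` and
decreasing beyond (private lemmas `gx_up`, `gx_down` there, or `triv_gw_up`, `triv_gw_down` in `Pool/Agent/H21/MT/Triv.lean`), so
`ap_sum` with `t = ⌊x⌋₊`, `B = 1` gives `ud_win`.  `mass_ge`: the `N` in `(x/2, x]` have `gw ≥ 1/2`.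
-/

namespace Pool.Agent.H95.L1

open Finset Filter Topology Pool.Agent.H92.MM Pool.Agent.H21.MT

private theorem win_up {x : ℝ} (hx : 1 ≤ x) (k : ℕ) (hk0 : 0 < k) (hk : k < ⌊x⌋₊) :
    gw x k ≤ gw x (k + 1) := by
  have hx0 : 0 < x := by linarith
  have hk' : (k : ℝ) + 1 ≤ x := by
    have h1 : k + 1 ≤ ⌊x⌋₊ := hk
    have h2 := (Nat.le_floor_iff hx0.le).mp h1
    push_cast at h2
    exact h2
  have hkpos : (0 : ℝ) < k := by exact_mod_cast hk0
  unfold gw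
  apply Real.exp_le_exp.mpr
  have h1 : Real.log ((k : ℝ) / x) ≤ Real.log (((k + 1 : ℕ) : ℝ) / x) := by
    apply Real.log_le_log (by positivity)
    apply div_le_div_of_nonneg_right _ hx0.le
    push_cast
    linarith
  have h2 : Real.log (((k + 1 : ℕ) : ℝ) / x) ≤ 0 := by
    apply Real.log_nonpos (by positivity)
    rw [div_le_one hx0]
    push_cast
    exact hk'
  have h3 : (Real.log (((k + 1 : ℕ) : ℝ) / x)) ^ 2 ≤ (Real.log ((k : ℝ) / x)) ^ 2 := by
    nlinarith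
  linarith

private theorem win_down {x : ℝ} (hx : 1 ≤ x) (k : ℕ) (hk : ⌊x⌋₊ < k) :
    gw x (k + 1) ≤ gw x k := by
  have hx0 : 0 < x := by linarith
  have hk' : x < k := Nat.lt_of_floor_lt hk
  have hkpos : (0 : ℝ) < k := by linarith
  unfold gw
  apply Real.exp_le_exp.mpr
  have h1 : Real.log ((k : ℝ) / x) ≤ Real.log (((k + 1 : ℕ) : ℝ) / x) := by
    apply Real.log_le_log (by positivity)
    apply div_le_div_of_nonneg_right _ hx0.le
    push_cast
    linarith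
  have h2 : 0 ≤ Real.log ((k : ℝ) / x) := by
    apply Real.log_nonneg
    rw [one_le_div hx0]
    exact hk'.le
  have h3 : (Real.log ((k : ℝ) / x)) ^ 2 ≤ (Real.log (((k + 1 : ℕ) : ℝ) / x)) ^ 2 := by
    nlinarith
  linarith

theorem ud_win : ∀ᶠ x : ℝ in atTop, Pool.Agent.H95.FL.UD (Tx x) (gw x) (mass x) 4 := by
  filter_upwards [eventually_ge_atTop (1 : ℝ)] with x hx q c hq
  have h := ap_sum (gw x) ⌊Real.sqrt x⌋₊ ⌊x⌋₊ ⌊x ^ (1 + 1 / 2000 : ℝ)⌋₊ 1 (fun k => (gw_pos x k).le)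
    (fun k => gw_le_one x k) (fun k hk hk' => win_up hx k (by omega) hk')
    (fun k hk _ => win_down hx k hk) q c hq
  simpa [Tx, mass] using h

theorem mass_ge : ∀ᶠ x : ℝ in atTop, x / 8 ≤ mass x := by
  filter_upwards [eventually_ge_atTop (4 : ℝ)] with x hx
  have hx0 : 0 < x := by linarith
  have hsub : Ioc ⌊x / 2⌋₊ ⌊x⌋₊ ⊆ Tx x := by
    unfold Tx
    apply Ioc_subset_Ioc
    · apply Nat.floor_le_floor
      rw [Real.sqrt_le_left (by positivity)]
      nlinarith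
    · apply Nat.floor_le_floor
      have h := Real.rpow_le_rpow_of_exponent_le (show 1 ≤ x by linarith)
        (show (1 : ℝ) ≤ 1 + 1 / 2000 by norm_num)
      rwa [Real.rpow_one] at h
  have h1 : ∑ N ∈ Ioc ⌊x / 2⌋₊ ⌊x⌋₊, (1 / 2 : ℝ) ≤ ∑ N ∈ Ioc ⌊x / 2⌋₊ ⌊x⌋₊, gw x N := by
    refine sum_le_sum fun N hN => ?_
    obtain ⟨ha, hb⟩ := mem_Ioc.1 hN
    have ha' : x / 2 < N := (Nat.floor_lt (by positivity)).1 ha
    have hb' : (N : ℝ) ≤ x := (Nat.le_floor_iff hx0.le).1 hb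
    have hN0 : (0 : ℝ) < N := by linarith
    have h2 : Real.log ((N : ℝ) / x) ≤ 0 := Real.log_nonpos (by positivity) ((div_le_one hx0).2 hb')
    have h3 : -Real.log 2 ≤ Real.log ((N : ℝ) / x) := by
      rw [← Real.log_inv]
      apply Real.log_le_log (by norm_num)
      rw [le_div_iff₀ hx0]
      linarith
    have h4 := Real.log_two_lt_d9
    unfold gw
    have h5 : -(Real.log ((N : ℝ) / x)) ^ 2 / 2 ≥ -(1 / 2) := by nlinarith
    have h6 := Real.add_one_le_exp (-(Real.log ((N : ℝ) / x)) ^ 2 / 2)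
    linarith
  rw [sum_const, Nat.card_Ioc, nsmul_eq_mul] at h1
  have h2 : ∑ N ∈ Ioc ⌊x / 2⌋₊ ⌊x⌋₊, gw x N ≤ mass x :=
    sum_le_sum_of_subset_of_nonneg hsub fun N _ _ => (gw_pos x N).le
  have h3 : ⌊x / 2⌋₊ ≤ ⌊x⌋₊ := Nat.floor_le_floor (by linarith)
  rw [Nat.cast_sub h3] at h1
  have h4 := Nat.floor_le (show 0 ≤ x / 2 by positivity)
  have h5 := Nat.lt_floor_add_one x
  linarith

end Pool.Agent.H95.L1
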