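import Pool.Agent.H95.L1.Cho
import Pool.Agent.H95.L1.Crt
import Pool.Agent.H95.L1.Qk

/-!
[H95 L1 SUM]  Small monomials over rough numbers (generic form).

`cho_fam` writes the monomial as `∑_{k ∈ Fam} [Dv h k N]`, `crt` gives `r k` with `Dv h k N ↔ N % qk k = r k % qk k`; apply `FL.poly`
(`Pool/Agent/H95/FL/Sm.lean`) with the index set `Fam T A`, `q = qk`, `c = 1` (`|c| = 1`).  Coprimality: the prime factors of `qk k` are in the
sets `T i` (`prime_dvd_qk`), which do not divide `W` (`Nat.Coprime` via `Nat.Coprime` of all prime factors) and are not in `P`.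
`∑ |c k| = #Fam ≤ #All`.
-/

namespace Pool.Agent.H95.L1

open Finset Pool.Agent.H95.FL

open Classical in
theorem sm_sum {T0 : Finset ℕ} {ω : ℕ → ℝ} {X E : ℝ} (hT0 : UD T0 ω X E) (hω : ∀ N ∈ T0, 0 ≤ ω N)
    (hX : 0 ≤ X) {ι : Type} [Fintype ι] [DecidableEq ι] {L : ℕ} (h : ι → ℕ) (W b : ℕ)
    (P : Finset ℕ) (hW : 0 < W) (hP : ∀ p ∈ P, p.Prime ∧ ¬ p ∣ W)
    (hd : ∀ p ∈ P, ∀ i j, i ≠ j → ¬ (p : ℤ) ∣ (h i : ℤ) - h j)
    (Y d : ℝ) (fl fu : Finset ℕ → ℝ)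
    (hs : Sand (Fintype.card ι) (fun p => (Fintype.card ι : ℝ) / p) P Y d fl fu)
    (T : Fin L → Finset ℕ) (A : ι → Fin L → ℕ) (hT : ∀ i, ∀ p ∈ T i, p.Prime ∧ ¬ p ∣ W ∧ p ∉ P)
    (hTd : ∀ i i', i ≠ i' → Disjoint (T i) (T i'))
    (hTh : ∀ i, ∀ p ∈ T i, ∀ j j', j ≠ j' → ¬ (p : ℤ) ∣ (h j : ℤ) - h j') (hY : 0 ≤ Y) :
    |∑ N ∈ T0.filter (fun N => N % W = b % W ∧ DP h P N = ∅),
        ω N * ∏ j, ∏ i, ((((T i).filter (· ∣ N + h j)).card.choose (A j i) : ℕ) : ℝ) -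
      X / W * vv (fun p => (Fintype.card ι : ℝ) / p) P * GA T A| ≤
      d * (X / W * vv (fun p => (Fintype.card ι : ℝ) / p) P) * GA T A +
        Y * E * ((All T A).card : ℝ) := by
  have hE := hT0.nonneg
  have hTp : ∀ i, ∀ p ∈ T i, p.Prime := fun i p hp => (hT i p hp).1
  choose! r hr using fun k (hk : k ∈ Fam T A) => crt T A h hTp k hk
  have hall : ∀ k ∈ Fam T A, k ∈ All T A := fun k hk => (mem_Fam.1 hk).1
  have hq : ∀ k ∈ Fam T A, 0 < qk k := fun k hk => qk_pos hTp (hall k hk)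
  have h1 : ∀ k ∈ Fam T A, Nat.Coprime W (qk k) := by
    intro k hk
    refine Nat.Coprime.symm (Nat.coprime_of_dvd fun p hp hpk hpW => ?_)
    obtain ⟨j, i, hji⟩ := prime_dvd_qk hTp (hall k hk) hp hpk
    have hpT : p ∈ T i := ((mem_All.1 (hall k hk)) j i).1 hji
    exact (hT i p hpT).2.1 hpW
  have h2 : ∀ k ∈ Fam T A, ∀ p ∈ P, ¬ p ∣ qk k := by
    intro k hk p hp hpk
    obtain ⟨j, i, hji⟩ := prime_dvd_qk hTp (hall k hk) (hP p hp).1 hpk
    have hpT : p ∈ T i := ((mem_All.1 (hall k hk)) j i).1 hji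
    exact (hT i p hpT).2.2 hp
  have key := poly hT0 hω hX h W b P hW hP hd Y d fl fu hs (Fam T A) qk r (fun _ => (1 : ℝ))
    hq h1 h2
  have hL : ∑ N ∈ T0.filter (fun N => N % W = b % W ∧ DP h P N = ∅),
        ω N * ∏ j, ∏ i, ((((T i).filter (· ∣ N + h j)).card.choose (A j i) : ℕ) : ℝ) =
      ∑ N ∈ T0.filter (fun N => N % W = b % W ∧ DP h P N = ∅),
        ω N * (∑ k ∈ Fam T A, if N % qk k = r k % qk k then (1 : ℝ) else 0) := by
    refine sum_congr rfl fun N _ => ?_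
    rw [cho_fam T A h hTd hTh N]
    congr 1
    refine sum_congr rfl fun k hk => ?_
    have h3 := hr k hk N
    by_cases h4 : Dv h k N
    · rw [if_pos h4, if_pos (h3.1 h4)]
    · rw [if_neg h4, if_neg (fun h5 => h4 (h3.2 h5))]
  have hG : ∑ k ∈ Fam T A, (1 : ℝ) / (qk k : ℝ) = GA T A := rfl
  have hG2 : ∑ k ∈ Fam T A, |(1 : ℝ)| / (qk k : ℝ) = GA T A := by
    rw [abs_one]; rfl
  rw [hL]
  rw [hG, hG2] at key
  refine key.trans ?_
  have hc : (∑ _k ∈ Fam T A, |(1 : ℝ)|) ≤ ((All T A).card : ℝ) := by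
    rw [abs_one, sum_const, nsmul_eq_mul, mul_one]
    exact_mod_cast card_le_card (fun k hk => hall k hk)
  have h5 : Y * E * ∑ _k ∈ Fam T A, |(1 : ℝ)| ≤ Y * E * ((All T A).card : ℝ) :=
    mul_le_mul_of_nonneg_left hc (mul_nonneg hY hE)
  exact add_le_add le_rfl h5

end Pool.Agent.H95.L1
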