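import Pool.Agent.H92.MM.Def
import Pool.Agent.H95.FL.Main

/-!
[H95 L1] MP_8923e7_nt, ChenTuples: small monomials over rough numbers (law L1 of `/team-store/h92_measure.md`).
Definitions.

`T i` (`i : Fin L`) are pairwise disjoint finite sets of primes, `h j` (`j : ι`) the shifts, `A j i` the degrees.
-/

namespace Pool.Agent.H95.L1

open Finset

section
variable {ι : Type} [Fintype ι] [DecidableEq ι] {L : ℕ}

/-- all families `k` with `k j i ⊆ T i`, `#(k j i) = A j i` -/
def All (T : Fin L → Finset ℕ) (A : ι → Fin L → ℕ) : Finset (ι → Fin L → Finset ℕ) :=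
  Fintype.piFinset fun j => Fintype.piFinset fun i => (T i).powersetCard (A j i)

/-- pairwise disjoint members -/
def Dsj (k : ι → Fin L → Finset ℕ) : Prop :=
  ∀ j i j' i', (j, i) ≠ (j', i') → Disjoint (k j i) (k j' i')

open Classical in
/-- the families of pairwise disjoint sets -/
noncomputable def Fam (T : Fin L → Finset ℕ) (A : ι → Fin L → ℕ) : Finset (ι → Fin L → Finset ℕ) :=
  (All T A).filter Dsj

/-- the product of all primes of a family -/
def qk (k : ι → Fin L → Finset ℕ) : ℕ := ∏ j, ∏ i, ∏ p ∈ k j i, p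

/-- all primes of `k j i` divide `N + h j` -/
def Dv (h : ι → ℕ) (k : ι → Fin L → Finset ℕ) (N : ℕ) : Prop := ∀ j i, ∀ p ∈ k j i, p ∣ N + h j

/-- sum of `1/q` over the disjoint families -/
noncomputable def GA (T : Fin L → Finset ℕ) (A : ι → Fin L → ℕ) : ℝ := ∑ k ∈ Fam T A, 1 / (qk k : ℝ)

end

/-- elementary symmetric sum of the `1/p` -/
noncomputable def es (T : Finset ℕ) (s : ℕ) : ℝ := ∑ S ∈ T.powersetCard s, ∏ p ∈ S, (1 / (p : ℝ))

/-- sum of the `1/p` -/
noncomputable def lm (T : Finset ℕ) : ℝ := ∑ p ∈ T, (1 / (p : ℝ))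

/-- the primes of the presieve -/
noncomputable def PP (x a : ℝ) (W : ℕ) : Finset ℕ :=
  (range ⌈x ^ a⌉₊).filter (fun p => p.Prime ∧ ¬ p ∣ W)

/-- the ranges -/
noncomputable def TI (x a : ℝ) (L : ℕ) (i : Fin L) : Finset ℕ :=
  Pool.Agent.H92.MM.rg x (a * 2 ^ (i : ℕ)) (a * 2 ^ ((i : ℕ) + 1))

end Pool.Agent.H95.L1
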