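import Pool.Agent.H95.L1.Cho
import Pool.Agent.H95.L1.Crt
import Pool.Agent.H95.L1.Num
import Pool.Agent.H95.L1.One

/-!
[H95 L1 FAMS]  The shared lemma (S1): a small monomial is a sum of indicators of residue classes `r k` modulo `q k`, with all the
facts on the moduli that the laws (L1), (L2), (L3) need.
-/

namespace Pool.Agent.H95.L1

open Finset Filter Topology Pool.Agent.H92.MM

open Classical in
theorem fam {ι : Type} [Fintype ι] [DecidableEq ι] (L : ℕ) (a : ℝ) (ha : 0 < a) (h : ι → ℕ)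
    (hinj : Function.Injective h) (η ε : ℝ) (hε : 0 < ε) :
    ∀ᶠ x : ℝ in atTop, ∀ A : ι → Fin L → ℕ, sl a L A ≤ η →
      ∃ (κ : Type) (F : Finset κ) (q r : κ → ℕ),
        (∀ N : ℕ, sm x a L h A N = ∑ k ∈ F, if N % q k = r k % q k then (1 : ℝ) else 0) ∧
        (∀ k ∈ F, 0 < q k ∧ Squarefree (q k) ∧
          (∀ p : ℕ, p.Prime → p ∣ q k → x ^ a ≤ (p : ℝ) ∧ (p : ℝ) < x ^ (a * 2 ^ L)) ∧
          (q k : ℝ) ≤ x ^ sl a L A) ∧
        (∀ n : ℕ, (F.filter (fun k => q k = n)).card ≤ Fintype.card ι ^ n.primeFactors.card) ∧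
        (∀ k ∈ F, ∀ j0 : ι, (∀ i, A j0 i = 0) → Nat.Coprime (r k + h j0) (q k)) ∧
        (F.card : ℝ) ≤ x ^ sl a L A ∧
        |∑ k ∈ F, 1 / (q k : ℝ) - sv L A| ≤ ε := by
  have hfin := lev_finite (ι := ι) a η ha L
  have hev : ∀ᶠ x : ℝ in atTop, ∀ A ∈ {A : ι → Fin L → ℕ | sl a L A ≤ η},
      |GA (TI x a L) A - sv L A| ≤ ε := by
    rw [Filter.eventually_all_finite hfin]
    intro A _
    have h1 := GA_tendsto a ha L A
    have h2 := (Metric.tendsto_nhds.1 h1) ε hε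
    filter_upwards [h2] with x hx
    rw [Real.dist_eq] at hx
    exact hx.le
  have hxw : ∀ᶠ x : ℝ in atTop, ((∑ j, h j + 1 : ℕ) : ℝ) < x ^ a :=
    (tendsto_rpow_atTop ha).eventually_gt_atTop _
  filter_upwards [hev, hxw, eventually_ge_atTop (1 : ℝ)] with x hGA hwx hx1
  intro A hA
  have hxpos : 0 < x := by linarith
  have hdiff : ∀ p : ℕ, x ^ a ≤ (p : ℝ) → ∀ i j : ι, i ≠ j → ¬ (p : ℤ) ∣ (h i : ℤ) - h j := by
    intro p hpx i j hij hdvd
    have hp : ∑ j, h j + 1 < p := by exact_mod_cast lt_of_lt_of_le hwx hpx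
    have hi : h i ≤ ∑ j, h j := single_le_sum (fun j _ => Nat.zero_le (h j)) (mem_univ i)
    have hj : h j ≤ ∑ j, h j := single_le_sum (fun j _ => Nat.zero_le (h j)) (mem_univ j)
    have hne : (h i : ℤ) - h j ≠ 0 := by
      intro h0
      apply hij
      apply hinj
      have : (h i : ℤ) = h j := by linarith
      exact_mod_cast this
    have h2 := Int.le_of_dvd (abs_pos.2 hne) ((dvd_abs _ _).2 hdvd)
    have h3 : |(h i : ℤ) - h j| < p := by
      rw [abs_lt]
      constructor <;> omega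
    omega
  have hTprime : ∀ i, ∀ p ∈ TI x a L i, p.Prime := fun i p hp => (mem_TI.1 hp).1
  have hTd : ∀ i i', i ≠ i' → Disjoint (TI x a L i) (TI x a L i') :=
    fun i i' hii => TI_disj hx1 ha L i i' hii
  have hTh : ∀ i, ∀ p ∈ TI x a L i, ∀ j j', j ≠ j' → ¬ (p : ℤ) ∣ (h j : ℤ) - h j' :=
    fun i p hp => hdiff p (TI_ge hx1 ha hp)
  have hr : ∀ k : ι → Fin L → Finset ℕ, ∃ r : ℕ, k ∈ Fam (TI x a L) A →
      ∀ N, Dv h k N ↔ N % qk k = r % qk k := by
    intro k
    by_cases hk : k ∈ Fam (TI x a L) A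
    · obtain ⟨r, hr⟩ := crt (TI x a L) A h hTprime k hk
      exact ⟨r, fun _ => hr⟩
    · exact ⟨0, fun hk' => absurd hk' hk⟩
  choose r hr using hr
  refine ⟨ι → Fin L → Finset ℕ, Fam (TI x a L) A, qk, r, ?_, ?_, ?_, ?_, ?_, ?_⟩
  · intro N
    rw [sm_eq, cho_fam (TI x a L) A h hTd hTh N]
    apply sum_congr rfl
    intro k hk
    have h1 := hr k hk N
    by_cases hD : Dv h k N
    · rw [if_pos hD, if_pos (h1.1 hD)]
    · rw [if_neg hD, if_neg (fun h2 => hD (h1.2 h2))]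
  · intro k hk
    have hkA := (mem_Fam.1 hk).1
    refine ⟨qk_pos hTprime hkA, qk_squarefree hTprime hk, ?_, ?_⟩
    · intro p hp hpd
      obtain ⟨j, i, hpk⟩ := prime_dvd_qk hTprime hkA hp hpd
      have hpT := ((mem_All.1 hkA) j i).1 hpk
      refine ⟨TI_ge hx1 ha hpT, ?_⟩
      refine lt_of_lt_of_le (mem_TI.1 hpT).2.2 ?_
      apply Real.rpow_le_rpow_of_exponent_le hx1
      apply mul_le_mul_of_nonneg_left _ ha.le
      exact pow_le_pow_right₀ (by norm_num) (by have := i.2; omega)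
    · refine (qk_le (fun i : Fin L => x ^ (a * 2 ^ ((i : ℕ) + 1)))
        (fun i p hp => (mem_TI.1 hp).2.2.le) (fun i => by positivity) hkA).trans ?_
      rw [prod_level hxpos L A]
  · intro n
    convert num (TI x a L) A hTprime hTd n
  · intro k hk j0 hj0
    have hkA := (mem_Fam.1 hk).1
    have hDr : Dv h k (r k) := (hr k hk (r k)).2 rfl
    apply Nat.Coprime.symm
    apply Nat.coprime_of_dvd
    intro p hp hpq hpr
    obtain ⟨j, i, hpk⟩ := prime_dvd_qk hTprime hkA hp hpq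
    have hpT := ((mem_All.1 hkA) j i)
    have hjj : j ≠ j0 := by
      intro h1
      subst h1
      have h2 := hpT.2
      rw [hj0 i] at h2
      rw [card_eq_zero.1 h2] at hpk
      simp at hpk
    have h3 := hDr j i p hpk
    apply hdiff p (TI_ge hx1 ha (hpT.1 hpk)) j j0 hjj
    have h4 : ((p : ℤ)) ∣ ((r k + h j : ℕ) : ℤ) := Int.natCast_dvd_natCast.2 h3
    have h5 : ((p : ℤ)) ∣ ((r k + h j0 : ℕ) : ℤ) := Int.natCast_dvd_natCast.2 hpr
    have h6 := dvd_sub h4 h5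
    push_cast at h6
    rwa [add_sub_add_left_eq_sub] at h6
  · have h1 : ((Fam (TI x a L) A).card : ℝ) ≤ ((All (TI x a L) A).card : ℝ) := by
      have : Fam (TI x a L) A ⊆ All (TI x a L) A := fun k hk => (mem_Fam.1 hk).1
      exact_mod_cast card_le_card this
    refine h1.trans ((card_All_le (TI x a L) A (fun i => x ^ (a * 2 ^ ((i : ℕ) + 1)))
      (fun i => TI_card hx1 i)).trans ?_)
    rw [prod_level hxpos L A]
  · exact hGA A hA

end Pool.Agent.H95.L1
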